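import Pool.Agent.U195.SM.Low

set_option autoImplicit false
set_option linter.unusedSectionVars false

/-! The interleave bound and the entropy of the distribution of the labels. -/

namespace Pool.Agent.U195.SM

open Finset
open Pool.Agent.H581R2.Splay Pool.Agent.TH49.Spl

/-- all flags are down -/
def Clean : AS → Prop
  | AS.leaf => True
  | AS.node _ b p A B => b = false ∧ p = false ∧ Clean A ∧ Clean B

theorem clean_inv (T : Tr) : ∀ (s : AS) (l r : ℕ), Clean s → inv T s l r := by
  intro s
  induction s with
  | leaf => intro l r _; trivial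
  | node m b p A B ihA ihB =>
    intro l r hc
    obtain ⟨h1, -, h3, h4⟩ := hc
    exact ⟨fun h => by rw [h1] at h; simp at h, ihA l m h3, ihB m r h4⟩

theorem clean_cred : ∀ (s : AS), Clean s → cred s = 0 := by
  intro s
  induction s with
  | leaf => intro _; rfl
  | node m b p A B ihA ihB =>
    intro hc
    obtain ⟨-, h2, h3, h4⟩ := hc
    simp [cred, h2, ihA h3, ihB h4]

variable {V : Type} [Fintype V] {π : V → ℝ} {P : V → V → ℝ} {lam : ℝ}

/-- the probability of the label `x` -/
def pt (π : V → ℝ) (κ : V → ℕ) (x : ℕ) : ℝ := mass π κ x (x + 1)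

theorem pt_nonneg (h : Gap π P lam) (κ : V → ℕ) (x : ℕ) : 0 ≤ pt π κ x := mass_nonneg h κ _ _

/-- the keys in an interval -/
def part (K : Finset ℕ) (l r : ℕ) : Finset ℕ := K.filter fun x => l ≤ x ∧ x < r

theorem mass_sum {κ : V → ℕ} {K : Finset ℕ} (hκ : ∀ v, κ v ∈ K) (l r : ℕ) :
    mass π κ l r = ∑ x ∈ part K l r, pt π κ x := by
  unfold mass pt mass part
  rw [sum_comm]
  refine sum_congr rfl fun v _ => ?_
  rw [← mul_sum]
  congr 1
  unfold ind
  by_cases h : l ≤ κ v ∧ κ v < r
  · rw [if_pos h]
    rw [sum_eq_single (κ v)]
    · rw [if_pos (by omega)]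
    · intro b _ hb
      rw [if_neg (by omega)]
    · intro hn
      exact absurd (mem_filter.2 ⟨hκ v, h⟩) hn
  · rw [if_neg h]
    symm
    refine sum_eq_zero fun x hx => ?_
    rw [mem_filter] at hx
    rw [if_neg (by omega)]

theorem pt_le_mass (h : Gap π P lam) {κ : V → ℕ} {l r x : ℕ} (h1 : l ≤ x) (h2 : x < r) :
    pt π κ x ≤ mass π κ l r := by
  have e1 := mass_add π κ (l := l) (m := x) (r := x + 1) h1 (by omega)
  have e2 := mass_add π κ (l := l) (m := x + 1) (r := r) (by omega) (by omega)
  have n1 := mass_nonneg h κ l x
  have n2 := mass_nonneg h κ (x + 1) r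
  unfold pt
  linarith

/-- entropy of the labels in an interval (times the probability of the interval) -/
noncomputable def ent (π : V → ℝ) (κ : V → ℕ) (K : Finset ℕ) (l r : ℕ) : ℝ :=
  ∑ x ∈ part K l r, pt π κ x * Real.log (mass π κ l r / pt π κ x)

theorem sum_log_part (h : Gap π P lam) {κ : V → ℕ} {K : Finset ℕ} (hκ : ∀ v, κ v ∈ K)
    {l r l' r' : ℕ} (h1 : l ≤ l') (h2 : r' ≤ r) :
    ∑ x ∈ part K l' r', pt π κ x * Real.log (mass π κ l r / pt π κ x) =
      ent π κ K l' r' + mass π κ l' r' * Real.log (mass π κ l r / mass π κ l' r') := by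
  have e1 := mass_sum (π := π) hκ l' r'
  unfold ent
  have e2 : mass π κ l' r' * Real.log (mass π κ l r / mass π κ l' r') =
      ∑ x ∈ part K l' r', pt π κ x * Real.log (mass π κ l r / mass π κ l' r') := by
    rw [← sum_mul, ← e1]
  rw [e2, ← sum_add_distrib]
  refine sum_congr rfl fun x hx => ?_
  unfold part at hx
  rw [mem_filter] at hx
  rcases (pt_nonneg h κ x).eq_or_lt with h0 | h0
  · rw [← h0]; ring
  · have m1 : 0 < mass π κ l' r' := lt_of_lt_of_le h0 (pt_le_mass h hx.2.1 hx.2.2)
    have m2 : 0 < mass π κ l r := lt_of_lt_of_le h0 (pt_le_mass h (by omega) (by omega))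
    rw [Real.log_div m2.ne' h0.ne', Real.log_div m1.ne' h0.ne', Real.log_div m2.ne' m1.ne']
    ring

theorem ent_split (h : Gap π P lam) {κ : V → ℕ} {K : Finset ℕ} (hκ : ∀ v, κ v ∈ K)
    {l m r : ℕ} (h1 : l ≤ m) (h2 : m ≤ r) :
    ent π κ K l r = (ent π κ K l m + mass π κ l m * Real.log (mass π κ l r / mass π κ l m)) +
      (ent π κ K m r + mass π κ m r * Real.log (mass π κ l r / mass π κ m r)) := by
  rw [← sum_log_part h hκ (le_refl l) h2, ← sum_log_part h hκ h1 (le_refl r)]
  have hd : Disjoint (part K l m) (part K m r) := by
    rw [disjoint_left]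
    intro x hx hy
    unfold part at hx hy
    rw [mem_filter] at hx hy
    omega
  rw [← sum_union hd]
  unfold ent
  refine sum_congr ?_ fun _ _ => rfl
  ext x
  unfold part
  rw [mem_union, mem_filter, mem_filter, mem_filter]
  constructor
  · rintro ⟨h3, h4⟩
    by_cases h5 : x < m
    · left; exact ⟨h3, h4.1, h5⟩
    · right; exact ⟨h3, by omega, h4.2⟩
  · rintro (⟨h3, h4⟩ | ⟨h3, h4⟩)
    · exact ⟨h3, by omega⟩
    · exact ⟨h3, by omega⟩

theorem xlog_le {a p : ℝ} (ha : 0 ≤ a) (hp : a ≤ p) : a * Real.log (p / a) ≤ p - a := by
  rcases ha.eq_or_lt with h | h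
  · rw [← h]; simp; linarith
  · have h' : 0 < p := by linarith
    have := Real.log_le_sub_one_of_pos (div_pos h' h)
    have h2 := mul_le_mul_of_nonneg_left this ha
    have e : a * (p / a - 1) = p - a := by field_simp
    linarith

theorem ent_small (h : Gap π P lam) {κ : V → ℕ} {K : Finset ℕ} (hκ : ∀ v, κ v ∈ K)
    (l r : ℕ) : ent π κ K l r ≤ mass π κ l r * Real.log ((part K l r).card) := by
  obtain ⟨N, hN⟩ : ∃ N, N = (part K l r).card := ⟨_, rfl⟩
  rw [← hN]
  rcases Nat.eq_zero_or_pos N with h0 | h0
  · have : part K l r = ∅ := card_eq_zero.1 (by rw [← hN, h0])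
    unfold ent
    rw [mass_sum hκ l r, this]
    simp
  · have hNr : (0 : ℝ) < N := by exact_mod_cast h0
    have e1 := mass_sum (π := π) hκ l r
    have e2 : ∀ x ∈ part K l r, pt π κ x * Real.log (mass π κ l r / pt π κ x) ≤
        pt π κ x * Real.log N + (mass π κ l r / N - pt π κ x) := by
      intro x hx
      unfold part at hx
      rw [mem_filter] at hx
      rcases (pt_nonneg h κ x).eq_or_lt with q | q
      · rw [← q]
        simp only [zero_mul, zero_add, sub_zero]
        exact div_nonneg (mass_nonneg h κ l r) hNr.le
      · have m2 : 0 < mass π κ l r := lt_of_lt_of_le q (pt_le_mass h hx.2.1 hx.2.2)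
        have q1 : 0 < mass π κ l r / (N * pt π κ x) := by positivity
        have q2 := Real.log_le_sub_one_of_pos q1
        have q3 : Real.log (mass π κ l r / pt π κ x) =
            Real.log N + Real.log (mass π κ l r / (N * pt π κ x)) := by
          rw [← Real.log_mul hNr.ne' q1.ne']
          congr 1
          field_simp
        rw [q3, mul_add]
        have q4 := mul_le_mul_of_nonneg_left q2 q.le
        have q5 : pt π κ x * (mass π κ l r / (N * pt π κ x) - 1) =
            mass π κ l r / N - pt π κ x := by field_simp
        linarith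
    unfold ent
    refine (sum_le_sum e2).trans (le_of_eq ?_)
    rw [sum_add_distrib, ← sum_mul, sum_sub_distrib, sum_const, ← hN, ← e1, nsmul_eq_mul]
    field_simp
    ring

theorem part_card {K : Finset ℕ} {l m r : ℕ} (h1 : l ≤ m) (h2 : m ≤ r) :
    (part K l m).card + (part K m r).card = (part K l r).card := by
  rw [← card_union_of_disjoint]
  · congr 1
    ext x
    unfold part
    rw [mem_union, mem_filter, mem_filter, mem_filter]
    constructor
    · rintro (⟨h3, h4⟩ | ⟨h3, h4⟩)
      · exact ⟨h3, by omega⟩
      · exact ⟨h3, by omega⟩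
    · rintro ⟨h3, h4⟩
      by_cases h5 : x < m
      · left; exact ⟨h3, h4.1, h5⟩
      · right; exact ⟨h3, by omega, h4.2⟩
  · rw [disjoint_left]
    intro x hx hy
    unfold part at hx hy
    rw [mem_filter] at hx hy
    omega

/-- mean value of the interleave bound -/
noncomputable def Ev (π : V → ℝ) (P : V → V → ℝ) (κ : V → ℕ) (M : ℕ) (s : AS) (l r : ℕ) : ℝ :=
  expect P M π (fun X => (Pool.Agent.TH49.Spl.val s l r (X.map κ) : ℝ))

theorem Ev_node (κ : V → ℕ) (M m l r : ℕ) (A B : AS) :
    Ev π P κ M (AS.node m false false A B) l r =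
      expect P M π (fun X => (cnt l m r false (X.map κ) : ℝ)) +
        (Ev π P κ M A l m + Ev π P κ M B m r) := by
  unfold Ev
  rw [← expect_add, ← expect_add]
  refine expect_congr M fun X _ => ?_
  simp only [Pool.Agent.TH49.Spl.val]
  push_cast
  ring

theorem Ev_leaf (κ : V → ℕ) (M l r : ℕ) : Ev π P κ M AS.leaf l r = 0 := by
  unfold Ev
  simp only [Pool.Agent.TH49.Spl.val, Nat.cast_zero]
  exact expect_zero M

theorem cnt_mean_nonneg (h : Gap π P lam) (κ : V → ℕ) (M l m r : ℕ) :
    0 ≤ expect P M π (fun X => (cnt l m r false (X.map κ) : ℝ)) := by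
  have : expect P M π (fun _ => (0 : ℝ)) ≤
      expect P M π (fun X => (cnt l m r false (X.map κ) : ℝ)) :=
    expect_mono h.nonneg M h.pos fun X _ => Nat.cast_nonneg _
  rwa [expect_zero] at this

/-- the recursive construction of the scheme -/
theorem scheme (h : Gap π P lam) {κ : V → ℕ} {K : Finset ℕ} (hκ : ∀ v, κ v ∈ K) {M N : ℕ}
    (hM : 1 ≤ M) (hN : K.card ≤ N) : ∀ (n l r : ℕ), r - l ≤ n → l ≤ r →
    ∃ s : AS, ok s l r ∧ Clean s ∧
      (1 - lam) ^ 4 / 2400000 * M * ent π κ K l r ≤ Ev π P κ M s l r +
        (1 - lam) ^ 4 / 2400000 * M * (4 * mass π κ l r +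
          3 * mass π κ l r ^ 2 / ((1 - lam) ^ 2 / 256) +
          (part K l r).card * (2 / M * Real.log N)) := by
  have hl : 0 < 1 - lam := by linarith [h.lam1]
  have hMr : (0 : ℝ) < M := by exact_mod_cast hM
  obtain ⟨c, hc⟩ : ∃ c, c = (1 - lam) ^ 4 / 2400000 * M := ⟨_, rfl⟩
  have hc0 : 0 < c := by rw [hc]; positivity
  obtain ⟨p0, hp0e⟩ : ∃ p0, p0 = (1 - lam) ^ 2 / 256 := ⟨_, rfl⟩
  have hp00 : 0 < p0 := by rw [hp0e]; positivity
  obtain ⟨η, hη⟩ : ∃ η, η = 2 / M * Real.log N := ⟨_, rfl⟩
  have hη0 : 0 ≤ η := by
    rw [hη]
    exact mul_nonneg (by positivity) (Real.log_natCast_nonneg N)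
  rw [← hc, ← hp0e, ← hη]
  intro n
  induction n with
  | zero =>
    intro l r h1 h2
    have e : l = r := by omega
    subst e
    refine ⟨AS.leaf, trivial, trivial, ?_⟩
    have e1 : part K l l = ∅ := by
      unfold part
      rw [filter_eq_empty_iff]
      intro x _ hx
      omega
    rw [Ev_leaf]
    have e2 : ent π κ K l l = 0 := by unfold ent; rw [e1]; simp
    rw [e2, mul_zero, e1]
    have := mass_nonneg h κ l l
    positivity
  | succ n ih =>
    intro l r h1 h2
    have hm0 := mass_nonneg h κ l r
    by_cases hsmall : mass π κ l r < 2 / M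
    · -- small probability: no split
      refine ⟨AS.leaf, trivial, trivial, ?_⟩
      rw [Ev_leaf, zero_add]
      refine mul_le_mul_of_nonneg_left ?_ hc0.le
      have e1 := ent_small h hκ l r
      rcases Nat.eq_zero_or_pos (part K l r).card with h0 | h0
      · rw [h0] at e1 ⊢
        simp only [Nat.cast_zero, Real.log_zero, mul_zero] at e1
        simp only [Nat.cast_zero, zero_mul, add_zero]
        have : 0 ≤ 4 * mass π κ l r + 3 * mass π κ l r ^ 2 / p0 := by positivity
        linarith
      · have e2 : mass π κ l r * Real.log ((part K l r).card) ≤ 2 / M * Real.log N := by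
          refine mul_le_mul hsmall.le ?_ (Real.log_natCast_nonneg _) (by positivity)
          refine Real.log_le_log (by exact_mod_cast h0) ?_
          exact_mod_cast (card_filter_le _ _).trans hN
        rw [← hη] at e2
        have e3 : η ≤ (part K l r).card * η := by
          have : (1 : ℝ) ≤ (part K l r).card := by exact_mod_cast h0
          nlinarith
        have : 0 ≤ 4 * mass π κ l r + 3 * mass π κ l r ^ 2 / p0 := by positivity
        linarith
    · rw [not_lt] at hsmall
      have hm1 : 0 < mass π κ l r := lt_of_lt_of_le (by positivity) hsmall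
      by_cases hheavy : ∃ x, l ≤ x ∧ x < r ∧ mass π κ l r / 2 ≤ pt π κ x
      · -- a heavy key
        obtain ⟨x, x1, x2, x3⟩ := hheavy
        obtain ⟨A, a1, a2, a3⟩ := ih l x (by omega) x1
        obtain ⟨B, b1, b2, b3⟩ := ih (x + 1) r (by omega) (by omega)
        refine ⟨AS.node x false false A (AS.node (x + 1) false false AS.leaf B),
          ⟨x1, x2.le, a1, by omega, by omega, trivial, b1⟩, ⟨rfl, rfl, a2, rfl, rfl, trivial, b2⟩,
          ?_⟩
        rw [Ev_node, Ev_node, Ev_leaf]
        have n1 := cnt_mean_nonneg h κ M l x r
        have n2 := cnt_mean_nonneg h κ M x (x + 1) r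
        have s1 := ent_split h hκ (K := K) x1 x2.le
        have s2 := ent_split h hκ (K := K) (l := x) (m := x + 1) (r := r) (by omega) (by omega)
        have s3 : ent π κ K x (x + 1) = 0 := by
          unfold ent
          refine sum_eq_zero fun y hy => ?_
          unfold part at hy
          rw [mem_filter] at hy
          have : y = x := by omega
          rw [this]
          unfold pt
          rcases (mass_nonneg h κ x (x + 1)).eq_or_lt with q | q
          · rw [← q]; simp
          · rw [div_self q.ne']; simp
        have ma := mass_add π κ x1 x2.le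
        have mb := mass_add π κ (l := x) (m := x + 1) (r := r) (by omega) (by omega)
        have k1 := mass_nonneg h κ l x
        have k2 := mass_nonneg h κ (x + 1) r
        have k3 := mass_nonneg h κ x (x + 1)
        have k4 := mass_nonneg h κ x r
        have l1 := xlog_le k1 (show mass π κ l x ≤ mass π κ l r by linarith)
        have l2 := xlog_le k4 (show mass π κ x r ≤ mass π κ l r by linarith)
        have l3 := xlog_le k3 (show mass π κ x (x + 1) ≤ mass π κ x r by linarith)
        have l4 := xlog_le k2 (show mass π κ (x + 1) r ≤ mass π κ x r by linarith)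
        have c1 := part_card (K := K) (l := l) (m := x) (r := r) x1 x2.le
        have c2 := part_card (K := K) (l := x) (m := x + 1) (r := r) (by omega) (by omega)
        have c3 : ((part K l x).card : ℝ) + (part K (x + 1) r).card ≤ (part K l r).card := by
          have : (part K l x).card + (part K (x + 1) r).card ≤ (part K l r).card := by omega
          exact_mod_cast this
        unfold pt at x3
        have e1 : ent π κ K l r ≤ ent π κ K l x + ent π κ K (x + 1) r +
            4 * mass π κ x (x + 1) := by
          rw [s1, s2, s3]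
          linarith
        have e2 := mul_le_mul_of_nonneg_left e1 hc0.le
        have e3 : c * ((4 * mass π κ l x + 3 * mass π κ l x ^ 2 / p0 + (part K l x).card * η) +
            (4 * mass π κ (x + 1) r + 3 * mass π κ (x + 1) r ^ 2 / p0 +
              (part K (x + 1) r).card * η) + 4 * mass π κ x (x + 1)) ≤
            c * (4 * mass π κ l r + 3 * mass π κ l r ^ 2 / p0 + (part K l r).card * η) := by
          refine mul_le_mul_of_nonneg_left ?_ hc0.le
          have f1 : 3 * mass π κ l x ^ 2 / p0 + 3 * mass π κ (x + 1) r ^ 2 / p0 ≤
              3 * mass π κ l r ^ 2 / p0 := by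
            rw [← add_div]
            refine div_le_div_of_nonneg_right ?_ hp00.le
            have : mass π κ l x + mass π κ (x + 1) r ≤ mass π κ l r := by linarith
            nlinarith
          have f2 := mul_le_mul_of_nonneg_right c3 hη0
          rw [add_mul] at f2
          linarith
        rw [mul_add, mul_add] at e3
        rw [mul_add, mul_add] at e2
        linarith
      · -- a balanced split
        push Not at hheavy
        have hex : ∃ t, mass π κ l r / 4 ≤ mass π κ l (t + 1) ∧ l ≤ t := by
          refine ⟨r, ?_, h2⟩
          have := mass_add π κ (l := l) (m := r) (r := r + 1) h2 (by omega)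
          have := mass_nonneg h κ r (r + 1)
          linarith
        classical
        obtain ⟨t, ht⟩ : ∃ t, t = Nat.find hex := ⟨_, rfl⟩
        have ht1 := Nat.find_spec hex
        rw [← ht] at ht1
        obtain ⟨t1, t2⟩ := ht1
        have ht3 : ∀ t' < t, l ≤ t' → mass π κ l (t' + 1) < mass π κ l r / 4 := by
          intro t' h3 h4
          by_contra hcon
          rw [not_lt] at hcon
          exact Nat.find_min hex (by rw [← ht]; exact h3) ⟨hcon, h4⟩
        have ht4 : mass π κ l t < mass π κ l r / 4 := by
          rcases t2.eq_or_lt with q | q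
          · rw [← q]
            have : mass π κ l l = 0 := by
              have := mass_add π κ (le_refl l) (le_refl l)
              linarith
            rw [this]
            positivity
          · have := ht3 (t - 1) (by omega) (by omega)
            rwa [show t - 1 + 1 = t by omega] at this
        have ht5 : t < r := by
          by_contra hcon
          rw [not_lt] at hcon
          have := mass_add π κ (l := l) (m := r) (r := t) h2 hcon
          have := mass_nonneg h κ r t
          linarith
        have ht6 := hheavy t t2 ht5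
        unfold pt at ht6
        have ma := mass_add π κ (l := l) (m := t) (r := t + 1) t2 (by omega)
        have mb := mass_add π κ (l := l) (m := t + 1) (r := r) (by omega) (by omega)
        obtain ⟨m, hm⟩ : ∃ m, m = t + 1 := ⟨_, rfl⟩
        rw [← hm] at t1 ma mb ht6
        have hlm : l ≤ m := by omega
        have hmr : m ≤ r := by omega
        have hβ : mass π κ l r / 4 ≤ mass π κ m r := by linarith
        have hmr' : m < r := by
          rcases hmr.eq_or_lt with q | q
          · rw [q] at mb hβ
            have : mass π κ r r = 0 := by linarith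
            rw [this] at hβ
            linarith
          · exact q
        have hlm' : l < m := by omega
        obtain ⟨A, a1, a2, a3⟩ := ih l m (by omega) hlm
        obtain ⟨B, b1, b2, b3⟩ := ih m r (by omega) hmr
        refine ⟨AS.node m false false A B, ⟨hlm, hmr, a1, b1⟩, ⟨rfl, rfl, a2, b2⟩, ?_⟩
        rw [Ev_node]
        have s1 := ent_split h hκ (K := K) hlm hmr
        have k1 := mass_nonneg h κ l m
        have k2 := mass_nonneg h κ m r
        have l1 := xlog_le k1 (show mass π κ l m ≤ mass π κ l r by linarith)
        have l2 := xlog_le k2 (show mass π κ m r ≤ mass π κ l r by linarith)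
        have e1 : ent π κ K l r ≤ ent π κ K l m + ent π κ K m r + mass π κ l r := by
          rw [s1]
          linarith
        have e2 := mul_le_mul_of_nonneg_left e1 hc0.le
        have c3 : ((part K l m).card : ℝ) + (part K m r).card = (part K l r).card := by
          exact_mod_cast part_card (K := K) hlm hmr
        have n1 := cnt_mean_nonneg h κ M l m r
        have f2 : ((part K l m).card : ℝ) * η + (part K m r).card * η = (part K l r).card * η := by
          rw [← add_mul, c3]
        by_cases hbig : mass π κ l r ≤ p0
        · have low := cnt_lower (M := M) h κ hlm hmr hm1 (by rw [← hp0e]; exact hbig) (by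
            have := mul_le_mul_of_nonneg_left hsmall hMr.le
            have e : (M : ℝ) * (2 / M) = 2 := by field_simp
            linarith) t1 hβ
          rw [← mul_assoc, ← hc] at low
          have f1 : 3 * mass π κ l m ^ 2 / p0 + 3 * mass π κ m r ^ 2 / p0 ≤
              3 * mass π κ l r ^ 2 / p0 := by
            rw [← add_div]
            refine div_le_div_of_nonneg_right ?_ hp00.le
            nlinarith
          have e3 : c * ((4 * mass π κ l m + 3 * mass π κ l m ^ 2 / p0 + (part K l m).card * η) +
              (4 * mass π κ m r + 3 * mass π κ m r ^ 2 / p0 + (part K m r).card * η)) ≤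
              c * (4 * mass π κ l r + 3 * mass π κ l r ^ 2 / p0 + (part K l r).card * η) := by
            refine mul_le_mul_of_nonneg_left ?_ hc0.le
            linarith
          rw [mul_add] at e3
          rw [mul_add, mul_add] at e2
          linarith
        · rw [not_le] at hbig
          have f1 : 3 * mass π κ l m ^ 2 / p0 + 3 * mass π κ m r ^ 2 / p0 + mass π κ l r ≤
              3 * mass π κ l r ^ 2 / p0 := by
            rw [← add_div, ← sub_nonneg]
            have e5 : 3 * mass π κ l r ^ 2 / p0 -
                ((3 * mass π κ l m ^ 2 + 3 * mass π κ m r ^ 2) / p0 + mass π κ l r) =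
                (6 * mass π κ l m * mass π κ m r - mass π κ l r * p0) / p0 := by
              rw [← mb]
              field_simp
              ring
            rw [e5]
            refine div_nonneg ?_ hp00.le
            have q1 : 3 / 16 * mass π κ l r ^ 2 ≤ mass π κ l m * mass π κ m r := by nlinarith
            have q2 : mass π κ l r * p0 ≤ mass π κ l r ^ 2 := by nlinarith
            have q3 := sq_nonneg (mass π κ l r)
            have q4 : 6 * mass π κ l m * mass π κ m r = 6 * (mass π κ l m * mass π κ m r) := by
              ring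
            rw [q4]
            linarith
          have e3 : c * ((4 * mass π κ l m + 3 * mass π κ l m ^ 2 / p0 + (part K l m).card * η) +
              (4 * mass π κ m r + 3 * mass π κ m r ^ 2 / p0 + (part K m r).card * η) +
                mass π κ l r) ≤
              c * (4 * mass π κ l r + 3 * mass π κ l r ^ 2 / p0 + (part K l r).card * η) := by
            refine mul_le_mul_of_nonneg_left ?_ hc0.le
            linarith
          rw [mul_add, mul_add] at e3
          rw [mul_add, mul_add] at e2
          linarith

end Pool.Agent.U195.SM
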