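import Pool.Agent.U195.SM.Op

set_option autoImplicit false
set_option linter.unusedSectionVars false

/-! Expectations over the first steps of a Markov chain. -/

namespace Pool.Agent.U195.SM

open Finset

variable {V : Type} [Fintype V]

/-- The mean of `F (X_1, …, X_m)` for a sequence of states `X_1, …, X_m` whose first state has the
distribution `μ`, while the state after `v` has the distribution `P v`. -/
def expect (P : V → V → ℝ) : ℕ → (V → ℝ) → (List V → ℝ) → ℝ
  | 0, _, F => F []
  | m + 1, μ, F => ∑ v, μ v * expect P m (P v) (fun X => F (v :: X))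

section

variable {P : V → V → ℝ}

theorem expect_mono (hP : ∀ v w, 0 ≤ P v w) (m : ℕ) : ∀ {μ : V → ℝ}, (∀ v, 0 ≤ μ v) →
    ∀ {F G : List V → ℝ}, (∀ X, X.length = m → F X ≤ G X) → expect P m μ F ≤ expect P m μ G := by
  induction m with
  | zero => intro μ hμ F G h; exact h [] rfl
  | succ m ih =>
    intro μ hμ F G h
    exact sum_le_sum fun v _ => mul_le_mul_of_nonneg_left
      (ih (hP v) fun X hX => h (v :: X) (by simp [hX])) (hμ v)

theorem expect_congr (m : ℕ) : ∀ {μ : V → ℝ} {F G : List V → ℝ},
    (∀ X, X.length = m → F X = G X) → expect P m μ F = expect P m μ G := by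
  induction m with
  | zero => intro μ F G h; exact h [] rfl
  | succ m ih =>
    intro μ F G h
    exact sum_congr rfl fun v _ => by rw [ih fun X hX => h (v :: X) (by simp [hX])]

theorem expect_add (m : ℕ) : ∀ (μ : V → ℝ) (F G : List V → ℝ),
    expect P m μ (fun X => F X + G X) = expect P m μ F + expect P m μ G := by
  induction m with
  | zero => intro μ F G; rfl
  | succ m ih =>
    intro μ F G
    simp only [expect, ih]
    rw [← sum_add_distrib]
    exact sum_congr rfl fun v _ => by ring

theorem expect_smul (m : ℕ) : ∀ (μ : V → ℝ) (c : ℝ) (F : List V → ℝ),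
    expect P m μ (fun X => c * F X) = c * expect P m μ F := by
  induction m with
  | zero => intro μ c F; rfl
  | succ m ih =>
    intro μ c F
    simp only [expect, ih]
    rw [mul_sum]
    exact sum_congr rfl fun v _ => by ring

theorem expect_const (hrow : ∀ v, ∑ w, P v w = 1) (m : ℕ) : ∀ {μ : V → ℝ}, ∑ v, μ v = 1 →
    ∀ c : ℝ, expect P m μ (fun _ => c) = c := by
  induction m with
  | zero => intro μ _ c; rfl
  | succ m ih =>
    intro μ hμ c
    simp only [expect]
    rw [sum_congr rfl fun v _ => by rw [ih (hrow v) c], ← sum_mul, hμ, one_mul]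

theorem expect_zero (m : ℕ) : ∀ {μ : V → ℝ}, expect P m μ (fun _ => 0) = 0 := by
  intro μ
  have := expect_smul (P := P) m μ 0 (fun _ => 0)
  simpa using this

theorem expect_sum (m : ℕ) (μ : V → ℝ) (s : Finset ℕ) (F : ℕ → List V → ℝ) :
    expect P m μ (fun X => ∑ i ∈ s, F i X) = ∑ i ∈ s, expect P m μ (F i) := by
  classical
  induction s using Finset.induction_on with
  | empty => simp [expect_zero]
  | insert a s ha ih =>
    simp only [sum_insert ha]
    rw [expect_add m μ (F a) (fun X => ∑ g ∈ s, F g X), ih]

/-- a function of the rest of the sequence -/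
theorem expect_drop (g : ℕ) : ∀ (m : ℕ) (v : V) (F : List V → ℝ),
    expect P (g + m) (P v) (fun X => F ((v :: X).drop g)) =
      ((op P)^[g] (fun w => expect P m (P w) (fun X => F (w :: X)))) v := by
  induction g with
  | zero => intro m v F; simp
  | succ g ih =>
    intro m v F
    rw [Function.iterate_succ_apply']
    unfold op
    have e : g + 1 + m = (g + m) + 1 := by ring
    rw [e]
    simp only [expect, List.drop_succ_cons]
    refine sum_congr rfl fun w _ => ?_
    rw [ih m w F]
    rfl

end

variable {π : V → ℝ} {P : V → V → ℝ} {lam : ℝ}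

/-- upper bound for functions of the rest of the sequence -/
theorem expect_drop_le (h : Gap π P lam) {F : List V → ℝ} (hF : F [] ≤ 0) {b : V → ℝ}
    (hb : ∀ v, 0 ≤ b v) (h1 : ∀ (m : ℕ) (v : V), expect P m (P v) (fun X => F (v :: X)) ≤ b v)
    (g m : ℕ) (v : V) :
    expect P m (P v) (fun X => F ((v :: X).drop g)) ≤ ((op P)^[g] b) v := by
  rcases le_or_gt g m with hg | hg
  · obtain ⟨k, rfl⟩ := Nat.exists_eq_add_of_le hg
    rw [expect_drop g k v F]
    exact iter_mono h g (fun w => h1 k w) v
  · have h2 : expect P m (P v) (fun X => F ((v :: X).drop g)) ≤ expect P m (P v) (fun _ => 0) := by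
      refine expect_mono h.nonneg m (h.nonneg v) fun X hX => ?_
      rw [List.drop_eq_nil_of_le (by simp [hX]; omega)]
      exact hF
    rw [expect_zero] at h2
    exact h2.trans (iter_nonneg h g hb v)

/-- the same, at the beginning of a stationary sequence -/
theorem expect_stat_le (h : Gap π P lam) {F : List V → ℝ} (hF : F [] ≤ 0) {b : V → ℝ}
    (hb : ∀ v, 0 ≤ b v) (h1 : ∀ (m : ℕ) (v : V), expect P m (P v) (fun X => F (v :: X)) ≤ b v)
    (i m : ℕ) : expect P m π (fun X => F (X.drop i)) ≤ ∑ v, π v * b v := by
  cases m with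
  | zero =>
    simp only [expect, List.drop_nil]
    exact hF.trans (sum_nonneg fun v _ => mul_nonneg (h.pos v) (hb v))
  | succ m =>
    simp only [expect]
    rw [← mean_iter h i b]
    exact sum_le_sum fun v _ => mul_le_mul_of_nonneg_left (expect_drop_le h hF hb h1 i m v)
      (h.pos v)

/-- equality, at the beginning of a stationary sequence -/
theorem expect_stat_eq (h : Gap π P lam) (F : List V → ℝ) (i m : ℕ) :
    expect P (i + (m + 1)) π (fun X => F (X.drop i)) =
      ∑ v, π v * expect P m (P v) (fun X => F (v :: X)) := by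
  have e : i + (m + 1) = (i + m) + 1 := by ring
  rw [e]
  simp only [expect]
  rw [← mean_iter h i (fun v => expect P m (P v) (fun X => F (v :: X)))]
  exact sum_congr rfl fun v _ => by rw [expect_drop i m v F]

/-- the value of `e` at the state number `t` (zero beyond the end) -/
def at' (e : V → ℝ) (X : List V) (t : ℕ) : ℝ := (X[t]?).elim 0 e

theorem at_drop (e : V → ℝ) (X : List V) (i t : ℕ) : at' e (X.drop i) t = at' e X (i + t) := by
  unfold at'
  rw [List.getElem?_drop]

theorem at_nil (e : V → ℝ) (t : ℕ) : at' e [] t = 0 := by simp [at']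

theorem at_len (e : V → ℝ) {X : List V} {t : ℕ} (ht : X.length ≤ t) : at' e X t = 0 := by
  unfold at'
  rw [List.getElem?_eq_none ht]
  rfl

theorem at_zero (e : V → ℝ) (v : V) (X : List V) : at' e (v :: X) 0 = e v := by simp [at']

theorem at_nonneg {e : V → ℝ} (he : Ind e) (X : List V) (t : ℕ) : 0 ≤ at' e X t := by
  unfold at'
  cases X[t]? with
  | none => simp
  | some v => simpa using he.nonneg v

/-- sums over the chains `i ≤ i + g₁ ≤ i + g₁ + g₂ ≤ …` -/
def fwd (D : ℕ) (e : ℕ → ℝ) : ℕ → ℕ → ℝ
  | 0, i => e i
  | k + 1, i => e i * ∑ g ∈ range (D + 1), fwd D e k (i + g)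

theorem fwd_drop (D : ℕ) (e : V → ℝ) (X : List V) (k : ℕ) : ∀ i j : ℕ,
    fwd D (at' e (X.drop i)) k j = fwd D (at' e X) k (i + j) := by
  induction k with
  | zero => intro i j; exact at_drop e X i j
  | succ k ih =>
    intro i j
    simp only [fwd, at_drop]
    congr 1
    refine sum_congr rfl fun g _ => ?_
    rw [ih i (j + g)]
    congr 1
    ring

theorem fwd_nil (D : ℕ) (e : V → ℝ) (k j : ℕ) : fwd D (at' e []) k j = 0 := by
  cases k with
  | zero => exact at_nil e j
  | succ k => simp [fwd, at_nil]

theorem fwd_nonneg {D : ℕ} {e : ℕ → ℝ} (he : ∀ t, 0 ≤ e t) (k : ℕ) : ∀ i, 0 ≤ fwd D e k i := by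
  induction k with
  | zero => exact he
  | succ k ih => intro i; exact mul_nonneg (he i) (sum_nonneg fun g _ => ih _)

theorem expect_fwd_aux (h : Gap π P lam) {e : V → ℝ} (he : Ind e) (D k : ℕ) :
    ∀ (m : ℕ) (v : V), expect P m (P v) (fun X => fwd D (at' e (v :: X)) k 0) ≤ H P e D k v := by
  induction k with
  | zero =>
    intro m v
    simp only [fwd, at_zero, H]
    rw [expect_const h.row m (h.row v)]
  | succ k ih =>
    intro m v
    simp only [fwd, at_zero, H]
    rw [expect_smul]
    refine mul_le_mul_of_nonneg_left ?_ (he.nonneg v)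
    rw [expect_sum]
    refine sum_le_sum fun g _ => ?_
    have e1 : ∀ X : List V, fwd D (at' e (v :: X)) k (0 + g) =
        (fun Y : List V => fwd D (at' e Y) k 0) ((v :: X).drop g) := by
      intro X
      simp only [fwd_drop]
      rw [zero_add, add_zero]
    simp only [e1]
    exact expect_drop_le h (F := fun Y : List V => fwd D (at' e Y) k 0)
      (le_of_eq (fwd_nil D e k 0)) (H_nonneg h he D k) ih g m v

/-- the mean of the number of chains of visits -/
theorem expect_fwd (h : Gap π P lam) {e : V → ℝ} (he : Ind e) {D : ℕ}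
    (hD : D * ∑ v, π v * e v ≤ 1) (k m : ℕ) :
    expect P m π (fun X => ∑ i ∈ range m, fwd D (at' e X) k i) ≤
      m * ((3 / (1 - lam)) ^ k * ∑ v, π v * e v) := by
  rw [expect_sum]
  have h1 : ∀ i ∈ range m, expect P m π (fun X => fwd D (at' e X) k i) ≤
      (3 / (1 - lam)) ^ k * ∑ v, π v * e v := by
    intro i _
    have e1 : ∀ X : List V, fwd D (at' e X) k i =
        (fun Y : List V => fwd D (at' e Y) k 0) (X.drop i) := by
      intro X
      simp only [fwd_drop]
      rw [add_zero]
    simp only [e1]
    refine le_trans (expect_stat_le h (F := fun Y : List V => fwd D (at' e Y) k 0)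
      (le_of_eq (fwd_nil D e k 0)) (H_nonneg h he D k) (expect_fwd_aux h he D k) i m) ?_
    exact mean_H h he hD k
  refine (sum_le_sum h1).trans ?_
  rw [sum_const, card_range, nsmul_eq_mul]

/-- the mean of a product of two values -/
theorem expect_pair (h : Gap π P lam) (a b : V → ℝ) (i g m : ℕ) (hm : i + g < m) :
    expect P m π (fun X => at' a X i * at' b X (i + g)) =
      ∑ v, π v * (a v * ((op P)^[g] b) v) := by
  obtain ⟨k, rfl⟩ : ∃ k, m = i + ((g + k) + 1) := ⟨m - i - g - 1, by omega⟩
  have e1 : ∀ X : List V, at' a X i * at' b X (i + g) =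
      (fun Y : List V => at' a Y 0 * at' b Y g) (X.drop i) := by
    intro X
    simp only [at_drop]
    rw [add_zero]
  simp only [e1]
  rw [expect_stat_eq h (fun Y : List V => at' a Y 0 * at' b Y g) i (g + k)]
  refine sum_congr rfl fun v _ => ?_
  simp only [at_zero]
  rw [expect_smul]
  congr 2
  have e2 : ∀ X : List V, at' b (v :: X) g = (fun Y : List V => at' b Y 0) ((v :: X).drop g) := by
    intro X
    simp only [at_drop]
    rw [add_zero]
  simp only [e2]
  rw [expect_drop g k v (fun Y : List V => at' b Y 0)]
  simp only [at_zero]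
  have e3 : (fun w => expect P k (P w) fun _ => b w) = b := by
    funext w
    rw [expect_const h.row k (h.row w)]
  rw [e3]

/-- the mean of a sum over the states of the sequence -/
theorem expect_map_sum (h : Gap π P lam) (f : V → ℝ) (m : ℕ) :
    expect P m π (fun X => (X.map f).sum) = m * ∑ v, π v * f v := by
  have e1 : expect P m π (fun X => (X.map f).sum) =
      expect P m π (fun X => ∑ i ∈ range m, at' f X i) := by
    refine expect_congr m fun X hX => ?_
    rw [← hX]
    clear hX
    induction X with
    | nil => simp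
    | cons v X ih =>
      rw [List.map_cons, List.sum_cons, ih, List.length_cons, sum_range_succ']
      rw [add_comm]
      congr 1
  rw [e1, expect_sum]
  have h1 : ∀ i ∈ range m, expect P m π (fun X => at' f X i) = ∑ v, π v * f v := by
    intro i hi
    rw [mem_range] at hi
    obtain ⟨k, rfl⟩ : ∃ k, m = i + (k + 1) := ⟨m - i - 1, by omega⟩
    have e2 : ∀ X : List V, at' f X i = (fun Y : List V => at' f Y 0) (X.drop i) := by
      intro X
      simp only [at_drop]
      rw [add_zero]
    simp only [e2]
    rw [expect_stat_eq h (fun Y : List V => at' f Y 0) i k]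
    refine sum_congr rfl fun v _ => ?_
    simp only [at_zero]
    rw [expect_const h.row k (h.row v)]
  rw [sum_congr rfl h1, sum_const, card_range, nsmul_eq_mul]

end Pool.Agent.U195.SM
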