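import Pool.Agent.U195.SM.Seq

set_option autoImplicit false
set_option linter.unusedSectionVars false

/-! The mean number of changes at a balanced split. -/

namespace Pool.Agent.U195.SM

open Finset
open Pool.Agent.TH49.Spl (cnt)

variable {V : Type} [Fintype V] {π : V → ℝ} {P : V → V → ℝ} {lam : ℝ}

/-- the probability of the labels in `[l, r)` -/
def mass (π : V → ℝ) (κ : V → ℕ) (l r : ℕ) : ℝ := ∑ v, π v * ind κ l r v

theorem mass_nonneg (h : Gap π P lam) (κ : V → ℕ) (l r : ℕ) : 0 ≤ mass π κ l r :=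
  sum_nonneg fun v _ => mul_nonneg (h.pos v) ((ind_ind κ l r).nonneg v)

theorem mass_add (π : V → ℝ) (κ : V → ℕ) {l m r : ℕ} (h1 : l ≤ m) (h2 : m ≤ r) :
    mass π κ l m + mass π κ m r = mass π κ l r := by
  unfold mass
  rw [← sum_add_distrib]
  refine sum_congr rfl fun v _ => ?_
  unfold ind
  split_ifs <;> first | omega | ring

theorem pow_le_of {lam p : ℝ} (h0 : 0 ≤ lam) (h1 : lam < 1) (hp : 0 < p)
    (hp0 : p ≤ (1 - lam) ^ 2 / 256) {G : ℕ} (hG : 1 / (4 * p) ≤ G) : lam ^ G ≤ p / 8 := by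
  have hl : 0 < 1 - lam := by linarith
  have e1 : lam ≤ Real.exp (-(1 - lam)) := by
    have := Real.add_one_le_exp (-(1 - lam))
    linarith
  have e2 : lam ^ G ≤ Real.exp (-((1 - lam) * G)) := by
    calc lam ^ G ≤ Real.exp (-(1 - lam)) ^ G := pow_le_pow_left₀ h0 e1 G
      _ = Real.exp (-((1 - lam) * G)) := by
        rw [← Real.exp_nat_mul]
        congr 1
        ring
  obtain ⟨y, hy⟩ : ∃ y, y = (1 - lam) / (4 * p) := ⟨_, rfl⟩
  have hy0 : 0 < y := by rw [hy]; positivity
  have hyG : y ≤ (1 - lam) * G := by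
    rw [hy]
    calc (1 - lam) / (4 * p) = (1 - lam) * (1 / (4 * p)) := by ring
      _ ≤ _ := mul_le_mul_of_nonneg_left hG hl.le
  have e3 : Real.exp (-((1 - lam) * G)) ≤ Real.exp (-y) := Real.exp_le_exp.2 (by linarith)
  have e4 : y ^ 2 / 2 ≤ Real.exp y := by
    have := Real.quadratic_le_exp_of_nonneg hy0.le
    linarith
  have e5 : Real.exp (-y) ≤ 2 / y ^ 2 := by
    rw [Real.exp_neg, inv_eq_one_div, div_le_div_iff₀ (Real.exp_pos y) (by positivity)]
    linarith
  have e6 : 2 / y ^ 2 ≤ p / 8 := by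
    rw [hy, div_pow, div_div_eq_mul_div, div_le_div_iff₀ (by positivity) (by norm_num)]
    have : 256 * p ≤ (1 - lam) ^ 2 := by linarith
    nlinarith [mul_le_mul_of_nonneg_left this hp.le]
  linarith

/-- the mean number of changes from the left to the right part of a balanced split -/
theorem cnt_lower (h : Gap π P lam) (κ : V → ℕ) {l m r M : ℕ} (hlm : l ≤ m) (hmr : m ≤ r)
    (hp : 0 < mass π κ l r) (hp0 : mass π κ l r ≤ (1 - lam) ^ 2 / 256)
    (hM : 2 ≤ M * mass π κ l r) (h1 : mass π κ l r / 4 ≤ mass π κ l m)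
    (h2 : mass π κ l r / 4 ≤ mass π κ m r) :
    (1 - lam) ^ 4 / 2400000 * (M * mass π κ l r) ≤
      expect P M π (fun X => (cnt l m r false (X.map κ) : ℝ)) := by
  have hl : 0 < 1 - lam := by linarith [h.lam1]
  have hadd := mass_add π κ hlm hmr
  obtain ⟨p, hpe⟩ : ∃ p, p = mass π κ l r := ⟨_, rfl⟩
  obtain ⟨α, hα⟩ : ∃ α, α = mass π κ l m := ⟨_, rfl⟩
  obtain ⟨β, hβ⟩ : ∃ β, β = mass π κ m r := ⟨_, rfl⟩
  rw [← hpe] at hp hp0 hM h1 h2 hadd ⊢
  rw [← hα] at h1 hadd
  rw [← hβ] at h2 hadd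
  have hp1 : p ≤ 1 / 256 := by
    have : (1 - lam) ^ 2 ≤ 1 := by
      have := h.lam0
      nlinarith
    linarith
  obtain ⟨G, hG⟩ : ∃ G, G = ⌊1 / (2 * p)⌋₊ := ⟨_, rfl⟩
  have hx : (1 : ℝ) ≤ 1 / (2 * p) := by
    rw [le_div_iff₀ (by positivity)]
    linarith
  have hG1 : (G : ℝ) ≤ 1 / (2 * p) := by
    rw [hG]
    exact Nat.floor_le (by positivity)
  have hG2 : 1 / (4 * p) ≤ (G : ℝ) := by
    have q1 : 1 / (2 * p) < G + 1 := by rw [hG]; exact Nat.lt_floor_add_one _
    have q2 : (1 : ℝ) ≤ G := by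
      rw [hG]
      have : 1 ≤ ⌊1 / (2 * p)⌋₊ := Nat.le_floor (by exact_mod_cast hx)
      exact_mod_cast this
    have q3 : 1 / (4 * p) = 1 / (2 * p) / 2 := by field_simp; ring
    rw [q3]
    linarith
  have hGp : G * p ≤ 1 / 2 := by
    calc G * p ≤ 1 / (2 * p) * p := mul_le_mul_of_nonneg_right hG1 hp.le
      _ = 1 / 2 := by field_simp
  have hGp2 : 1 / 4 ≤ G * p := by
    calc (1 : ℝ) / 4 = 1 / (4 * p) * p := by field_simp
      _ ≤ _ := mul_le_mul_of_nonneg_right hG2 hp.le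
  have hpow := pow_le_of h.lam0 h.lam1 hp hp0 hG2
  -- the correlations
  have hαβ : 3 / 16 * p ^ 2 ≤ α * β := by nlinarith
  have hs : p / 4 ≤ Real.sqrt (α * β) := by
    refine Real.le_sqrt_of_sq_le ?_
    nlinarith [sq_nonneg p]
  have hss : Real.sqrt (α * β) ^ 2 = α * β := Real.sq_sqrt (by nlinarith [sq_nonneg p])
  have hcorr : ∀ g, G < g → 3 / 32 * p ^ 2 ≤
      ∑ v, π v * (ind κ l m v * ((op P)^[g] (ind κ m r)) v) := by
    intro g hg
    have c1 := corr_ge h (ind_ind κ l m) (ind_ind κ m r) g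
    change mass π κ l m * mass π κ m r - lam ^ g * Real.sqrt (mass π κ l m * mass π κ m r) ≤ _ at c1
    rw [← hα, ← hβ] at c1
    have c2 : lam ^ g ≤ p / 8 := le_trans (pow_le_pow_of_le_one h.lam0 h.lam1.le hg.le) hpow
    have c3 : lam ^ g * Real.sqrt (α * β) ≤ p / 8 * Real.sqrt (α * β) :=
      mul_le_mul_of_nonneg_right c2 (Real.sqrt_nonneg _)
    have c4 : p / 8 * Real.sqrt (α * β) ≤ Real.sqrt (α * β) ^ 2 / 2 := by
      nlinarith [Real.sqrt_nonneg (α * β)]
    rw [hss] at c4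
    linarith
  -- mean number of pairs
  have hMG : 2 * (2 * G : ℝ) ≤ M := by
    have : 4 * (G : ℝ) * p ≤ M * p := by linarith
    have := le_of_mul_le_mul_right this hp
    linarith
  have hN : 3 / 256 * (M * p) ≤ expect P M π (fun X => ∑ i ∈ range M, ∑ g ∈ Ioc G (2 * G),
      at' (ind κ l m) X i * at' (ind κ m r) X (i + g)) := by
    rw [expect_sum]
    have t1 : ∀ i, expect P M π (fun X => ∑ g ∈ Ioc G (2 * G),
        at' (ind κ l m) X i * at' (ind κ m r) X (i + g)) = ∑ g ∈ Ioc G (2 * G),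
        expect P M π (fun X => at' (ind κ l m) X i * at' (ind κ m r) X (i + g)) :=
      fun i => expect_sum M π _ _
    have t2 : ∑ i ∈ range (M - 2 * G), expect P M π (fun X => ∑ g ∈ Ioc G (2 * G),
        at' (ind κ l m) X i * at' (ind κ m r) X (i + g)) ≤
        ∑ i ∈ range M, expect P M π (fun X => ∑ g ∈ Ioc G (2 * G),
        at' (ind κ l m) X i * at' (ind κ m r) X (i + g)) := by
      refine sum_le_sum_of_subset_of_nonneg ?_ fun i _ _ => ?_
      · intro i hi
        rw [mem_range] at hi ⊢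
        omega
      · have : expect P M π (fun _ => (0 : ℝ)) ≤ expect P M π (fun X => ∑ g ∈ Ioc G (2 * G),
            at' (ind κ l m) X i * at' (ind κ m r) X (i + g)) :=
          expect_mono h.nonneg M h.pos fun X _ => sum_nonneg fun g _ =>
            mul_nonneg (at_nonneg (ind_ind κ l m) X _) (at_nonneg (ind_ind κ m r) X _)
        rwa [expect_zero] at this
    refine le_trans ?_ t2
    have t3 : ∀ i ∈ range (M - 2 * G), (G : ℝ) * (3 / 32 * p ^ 2) ≤
        expect P M π (fun X => ∑ g ∈ Ioc G (2 * G),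
        at' (ind κ l m) X i * at' (ind κ m r) X (i + g)) := by
      intro i hi
      rw [mem_range] at hi
      rw [t1 i]
      have t4 : ∀ g ∈ Ioc G (2 * G), 3 / 32 * p ^ 2 ≤
          expect P M π (fun X => at' (ind κ l m) X i * at' (ind κ m r) X (i + g)) := by
        intro g hg
        rw [mem_Ioc] at hg
        rw [expect_pair h (ind κ l m) (ind κ m r) i g M (by omega)]
        exact hcorr g hg.1
      have t5 := sum_le_sum t4
      rw [sum_const, Nat.card_Ioc, nsmul_eq_mul] at t5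
      have : 2 * G - G = G := by omega
      rwa [this] at t5
    have t6 := sum_le_sum t3
    rw [sum_const, card_range, nsmul_eq_mul] at t6
    refine le_trans ?_ t6
    have t7 : ((M - 2 * G : ℕ) : ℝ) = M - 2 * G := by
      rw [Nat.cast_sub]
      · push_cast; ring
      · have : (2 * G : ℝ) ≤ M := by linarith [Nat.cast_nonneg (α := ℝ) G]
        exact_mod_cast this
    rw [t7]
    have t8 : (M : ℝ) / 2 ≤ M - 2 * G := by linarith
    have t9 : p / 4 * (3 / 32) ≤ (G : ℝ) * (3 / 32 * p ^ 2) := by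
      have : G * (3 / 32 * p ^ 2) = (G * p) * (3 / 32 * p) := by ring
      rw [this]
      have := mul_le_mul_of_nonneg_right hGp2 (show 0 ≤ 3 / 32 * p by positivity)
      linarith
    calc 3 / 256 * (M * p) = M / 2 * (p / 4 * (3 / 32)) := by ring
      _ ≤ (M - 2 * G) * (G * (3 / 32 * p ^ 2)) :=
        mul_le_mul t8 t9 (by positivity) (by linarith [Nat.cast_nonneg (α := ℝ) M])
  -- the number of chains
  have hT := expect_fwd h (ind_ind κ l r) (D := 2 * G) (by
    change ((2 * G : ℕ) : ℝ) * mass π κ l r ≤ 1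
    rw [← hpe]
    push_cast
    linarith) 4 M
  change _ ≤ (M : ℝ) * ((3 / (1 - lam)) ^ 4 * mass π κ l r) at hT
  rw [← hpe] at hT
  obtain ⟨K, hK⟩ : ∃ K, K = 81 / (1 - lam) ^ 4 := ⟨_, rfl⟩
  have hK0 : 0 < K := by rw [hK]; positivity
  have hK2 : (3 / (1 - lam)) ^ 4 = K := by rw [hK, div_pow]; norm_num
  rw [hK2] at hT
  have hθ : 0 < 171 * K := by positivity
  have hmain : expect P M π (fun X => ∑ i ∈ range M, ∑ g ∈ Ioc G (2 * G),
      at' (ind κ l m) X i * at' (ind κ m r) X (i + g)) ≤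
      (171 * K) * expect P M π (fun X => (cnt l m r false (X.map κ) : ℝ)) +
      1 / (171 * K) * expect P M π (fun X => ∑ i ∈ range M,
        fwd (2 * G) (at' (ind κ l r) X) 4 i) := by
    rw [← expect_smul, ← expect_smul, ← expect_add]
    refine expect_mono h.nonneg M h.pos fun X hX => ?_
    have := pairs_le κ hlm hmr G (2 * G) X hθ
    rw [hX] at this
    exact this
  have hMp : 0 ≤ M * p := by positivity
  have f1 : 1 / (171 * K) * expect P M π (fun X => ∑ i ∈ range M,
      fwd (2 * G) (at' (ind κ l r) X) 4 i) ≤ 1 / 171 * (M * p) := by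
    calc _ ≤ 1 / (171 * K) * (M * (K * p)) := mul_le_mul_of_nonneg_left hT (by positivity)
      _ = 1 / 171 * (M * p) := by field_simp
  have f2 : (3 / 256 - 1 / 171) * (M * p) ≤
      (171 * K) * expect P M π (fun X => (cnt l m r false (X.map κ) : ℝ)) := by linarith
  have f3 : 3 / 512 * (M * p) ≤
      (171 * K) * expect P M π (fun X => (cnt l m r false (X.map κ) : ℝ)) := by
    refine le_trans (mul_le_mul_of_nonneg_right ?_ hMp) f2
    norm_num
  have f4 : (1 - lam) ^ 4 / 2400000 * (M * p) ≤ 1 / (171 * K) * (3 / 512 * (M * p)) := by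
    have : 1 / (171 * K) * (3 / 512 * (M * p)) = (3 / (512 * 171 * 81)) * (1 - lam) ^ 4 * (M * p) := by
      rw [hK]
      field_simp
    rw [this]
    refine mul_le_mul_of_nonneg_right ?_ hMp
    have := pow_pos hl 4
    nlinarith
  refine f4.trans ?_
  calc 1 / (171 * K) * (3 / 512 * (M * p)) ≤ 1 / (171 * K) *
        ((171 * K) * expect P M π (fun X => (cnt l m r false (X.map κ) : ℝ))) :=
        mul_le_mul_of_nonneg_left f3 (by positivity)
    _ = _ := by field_simp

end Pool.Agent.U195.SM
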