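import Mathlib

set_option autoImplicit false
set_option linter.unusedSectionVars false

/-! Markov chains with an `L²` spectral gap: norms of products of transition operators and
indicator functions. -/

namespace Pool.Agent.U195.SM

open Finset

variable {V : Type} [Fintype V]

/-- one step of the chain, acting on functions -/
def op (P : V → V → ℝ) (f : V → ℝ) : V → ℝ := fun v => ∑ w, P v w * f w

/-- `π` is a stationary distribution of the Markov chain with the transition matrix `P`, and `P`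
contracts the functions of mean zero by the factor `lam < 1` in `L²(π)`. -/
structure Gap (π : V → ℝ) (P : V → V → ℝ) (lam : ℝ) : Prop where
  pos : ∀ v, 0 ≤ π v
  sum : ∑ v, π v = 1
  nonneg : ∀ v w, 0 ≤ P v w
  row : ∀ v, ∑ w, P v w = 1
  stat : ∀ w, ∑ v, π v * P v w = π w
  lam0 : 0 ≤ lam
  lam1 : lam < 1
  gap : ∀ f : V → ℝ, ∑ v, π v * f v = 0 →
    ∑ v, π v * (∑ w, P v w * f w) ^ 2 ≤ lam ^ 2 * ∑ v, π v * f v ^ 2

/-- the vector `√π f` -/
noncomputable def emb (π : V → ℝ) (f : V → ℝ) : EuclideanSpace ℝ V :=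
  WithLp.toLp 2 (fun v => Real.sqrt (π v) * f v)

/-- the norm of `L²(π)` -/
noncomputable def nrm (π : V → ℝ) (f : V → ℝ) : ℝ := ‖emb π f‖

theorem nrm_nonneg (π f : V → ℝ) : 0 ≤ nrm π f := norm_nonneg _

theorem nrm_sq {π : V → ℝ} (hπ : ∀ v, 0 ≤ π v) (f : V → ℝ) :
    nrm π f ^ 2 = ∑ v, π v * f v ^ 2 := by
  unfold nrm emb
  rw [EuclideanSpace.norm_sq_eq]
  refine sum_congr rfl fun v _ => ?_
  simp only [Real.norm_eq_abs, sq_abs]
  rw [mul_pow, Real.sq_sqrt (hπ v)]

theorem nrm_add (π f g : V → ℝ) : nrm π (fun v => f v + g v) ≤ nrm π f + nrm π g := by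
  unfold nrm
  refine le_trans (le_of_eq ?_) (norm_add_le _ _)
  congr 1
  ext v
  simp [emb]
  ring

theorem nrm_smul (π : V → ℝ) (c : ℝ) (f : V → ℝ) : nrm π (fun v => c * f v) = |c| * nrm π f := by
  unfold nrm
  rw [← Real.norm_eq_abs, ← norm_smul]
  congr 1
  ext v
  simp [emb]
  ring

theorem nrm_zero (π : V → ℝ) : nrm π (fun _ => 0) = 0 := by
  have := nrm_smul π 0 (fun _ => 0)
  simpa using this

theorem nrm_sum (π : V → ℝ) (s : Finset ℕ) (F : ℕ → V → ℝ) :
    nrm π (fun v => ∑ g ∈ s, F g v) ≤ ∑ g ∈ s, nrm π (F g) := by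
  classical
  induction s using Finset.induction_on with
  | empty => simp [nrm_zero]
  | insert a s ha ih =>
    simp only [sum_insert ha]
    exact le_trans (nrm_add π (F a) (fun v => ∑ g ∈ s, F g v)) (add_le_add le_rfl ih)

theorem inner_le {π : V → ℝ} (hπ : ∀ v, 0 ≤ π v) (f g : V → ℝ) :
    |∑ v, π v * (f v * g v)| ≤ nrm π f * nrm π g := by
  have h := abs_real_inner_le_norm (emb π f) (emb π g)
  unfold nrm
  refine le_trans (le_of_eq ?_) h
  congr 1
  rw [PiLp.inner_apply]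
  refine sum_congr rfl fun v _ => ?_
  simp only [emb]
  have : Real.sqrt (π v) * Real.sqrt (π v) = π v := Real.mul_self_sqrt (hπ v)
  simp only [RCLike.inner_apply, conj_trivial]
  calc π v * (f v * g v) = (Real.sqrt (π v) * Real.sqrt (π v)) * (f v * g v) := by rw [this]
    _ = _ := by ring

theorem nrm_mono {π : V → ℝ} (hπ : ∀ v, 0 ≤ π v) {f g : V → ℝ} (h : ∀ v, |f v| ≤ |g v|) :
    nrm π f ≤ nrm π g := by
  have h1 : nrm π f ^ 2 ≤ nrm π g ^ 2 := by
    rw [nrm_sq hπ, nrm_sq hπ]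
    refine sum_le_sum fun v _ => mul_le_mul_of_nonneg_left ?_ (hπ v)
    rw [← sq_abs, ← sq_abs (g v)]
    exact pow_le_pow_left₀ (abs_nonneg _) (h v) 2
  exact le_of_sq_le_sq h1 (nrm_nonneg _ _)

theorem mean_op {π : V → ℝ} {P : V → V → ℝ} {lam : ℝ} (h : Gap π P lam) (f : V → ℝ) :
    ∑ v, π v * op P f v = ∑ v, π v * f v := by
  unfold op
  have : ∀ v, π v * ∑ w, P v w * f w = ∑ w, (π v * P v w) * f w := by
    intro v
    rw [mul_sum]
    exact sum_congr rfl fun w _ => by ring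
  simp only [this]
  rw [sum_comm]
  refine sum_congr rfl fun w _ => ?_
  rw [← sum_mul, h.stat]

theorem mean_iter {π : V → ℝ} {P : V → V → ℝ} {lam : ℝ} (h : Gap π P lam) (g : ℕ) (f : V → ℝ) :
    ∑ v, π v * ((op P)^[g] f) v = ∑ v, π v * f v := by
  induction g generalizing f with
  | zero => rfl
  | succ g ih => rw [Function.iterate_succ_apply, ih, mean_op h]

theorem nrm_op {π : V → ℝ} {P : V → V → ℝ} {lam : ℝ} (h : Gap π P lam) {f : V → ℝ}
    (hf : ∑ v, π v * f v = 0) : nrm π (op P f) ≤ lam * nrm π f := by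
  have h1 : nrm π (op P f) ^ 2 ≤ (lam * nrm π f) ^ 2 := by
    rw [mul_pow, nrm_sq h.pos, nrm_sq h.pos]
    exact h.gap f hf
  exact le_of_sq_le_sq h1 (mul_nonneg h.lam0 (nrm_nonneg _ _))

theorem nrm_iter {π : V → ℝ} {P : V → V → ℝ} {lam : ℝ} (h : Gap π P lam) (g : ℕ) {f : V → ℝ}
    (hf : ∑ v, π v * f v = 0) : nrm π ((op P)^[g] f) ≤ lam ^ g * nrm π f := by
  induction g with
  | zero => simp
  | succ g ih =>
    rw [Function.iterate_succ_apply', pow_succ]
    have h1 := nrm_op h (f := (op P)^[g] f) (by rw [mean_iter h]; exact hf)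
    calc nrm π (op P ((op P)^[g] f)) ≤ lam * nrm π ((op P)^[g] f) := h1
      _ ≤ lam * (lam ^ g * nrm π f) := mul_le_mul_of_nonneg_left ih h.lam0
      _ = _ := by ring

theorem op_const {π : V → ℝ} {P : V → V → ℝ} {lam : ℝ} (h : Gap π P lam) (c : ℝ) :
    op P (fun _ => c) = fun _ => c := by
  funext v
  unfold op
  rw [← sum_mul, h.row, one_mul]

theorem op_add (P : V → V → ℝ) (f g : V → ℝ) :
    op P (fun v => f v + g v) = fun v => op P f v + op P g v := by
  funext v
  unfold op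
  rw [← sum_add_distrib]
  exact sum_congr rfl fun w _ => by ring

theorem iter_split {π : V → ℝ} {P : V → V → ℝ} {lam : ℝ} (h : Gap π P lam) (g : ℕ) (c : ℝ)
    (f : V → ℝ) : (op P)^[g] (fun v => c + f v) = fun v => c + ((op P)^[g] f) v := by
  induction g with
  | zero => rfl
  | succ g ih =>
    rw [Function.iterate_succ_apply', ih, Function.iterate_succ_apply']
    rw [op_add P (fun _ => c) ((op P)^[g] f), op_const h]

theorem op_nonneg {π : V → ℝ} {P : V → V → ℝ} {lam : ℝ} (h : Gap π P lam) {f : V → ℝ}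
    (hf : ∀ v, 0 ≤ f v) (v : V) : 0 ≤ op P f v :=
  sum_nonneg fun w _ => mul_nonneg (h.nonneg v w) (hf w)

theorem op_mono {π : V → ℝ} {P : V → V → ℝ} {lam : ℝ} (h : Gap π P lam) {f g : V → ℝ}
    (hf : ∀ v, f v ≤ g v) (v : V) : op P f v ≤ op P g v :=
  sum_le_sum fun w _ => mul_le_mul_of_nonneg_left (hf w) (h.nonneg v w)

theorem iter_nonneg {π : V → ℝ} {P : V → V → ℝ} {lam : ℝ} (h : Gap π P lam) (g : ℕ) {f : V → ℝ}
    (hf : ∀ v, 0 ≤ f v) : ∀ v, 0 ≤ ((op P)^[g] f) v := by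
  induction g with
  | zero => exact hf
  | succ g ih =>
    intro v
    rw [Function.iterate_succ_apply']
    exact op_nonneg h ih v

theorem iter_mono {π : V → ℝ} {P : V → V → ℝ} {lam : ℝ} (h : Gap π P lam) (g : ℕ) {f f' : V → ℝ}
    (hf : ∀ v, f v ≤ f' v) : ∀ v, ((op P)^[g] f) v ≤ ((op P)^[g] f') v := by
  induction g with
  | zero => exact hf
  | succ g ih =>
    intro v
    rw [Function.iterate_succ_apply', Function.iterate_succ_apply']
    exact op_mono h ih v

/-- the centered function has a smaller norm -/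
theorem nrm_center {π : V → ℝ} {P : V → V → ℝ} {lam : ℝ} (h : Gap π P lam) (f : V → ℝ) :
    nrm π (fun v => f v - ∑ w, π w * f w) ≤ nrm π f := by
  obtain ⟨m, hm⟩ : ∃ m, m = ∑ w, π w * f w := ⟨_, rfl⟩
  rw [← hm]
  have h1 : nrm π (fun v => f v - m) ^ 2 ≤ nrm π f ^ 2 := by
    rw [nrm_sq h.pos, nrm_sq h.pos]
    have : ∑ v, π v * (f v - m) ^ 2 = ∑ v, π v * f v ^ 2 - m ^ 2 := by
      have e : ∀ v, π v * (f v - m) ^ 2 = π v * f v ^ 2 - 2 * m * (π v * f v) + m ^ 2 * π v := by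
        intro v; ring
      simp only [e]
      rw [sum_add_distrib, sum_sub_distrib, ← mul_sum, ← mul_sum, h.sum, ← hm]
      ring
    rw [this]
    nlinarith [sq_nonneg m]
  exact le_of_sq_le_sq h1 (nrm_nonneg _ _)

theorem mean_center {π : V → ℝ} {P : V → V → ℝ} {lam : ℝ} (h : Gap π P lam) (f : V → ℝ) :
    ∑ v, π v * (f v - ∑ w, π w * f w) = 0 := by
  simp only [mul_sub]
  rw [sum_sub_distrib, ← sum_mul, h.sum]
  ring

/-- `e` is an indicator function -/
def Ind (e : V → ℝ) : Prop := ∀ v, e v = 0 ∨ e v = 1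

theorem Ind.nonneg {e : V → ℝ} (he : Ind e) (v : V) : 0 ≤ e v := by
  rcases he v with h | h <;> rw [h]; norm_num

theorem Ind.le_one {e : V → ℝ} (he : Ind e) (v : V) : e v ≤ 1 := by
  rcases he v with h | h <;> rw [h]; norm_num

theorem Ind.sq {e : V → ℝ} (he : Ind e) (v : V) : e v ^ 2 = e v := by
  rcases he v with h | h <;> rw [h] <;> norm_num

theorem nrm_ind {π : V → ℝ} (hπ : ∀ v, 0 ≤ π v) {e : V → ℝ} (he : Ind e) :
    nrm π e ^ 2 = ∑ v, π v * e v := by
  rw [nrm_sq hπ]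
  exact sum_congr rfl fun v _ => by rw [he.sq]

/-- the norm of `e P^g` on functions supported on `e` -/
theorem nrm_step {π : V → ℝ} {P : V → V → ℝ} {lam : ℝ} (h : Gap π P lam) {e : V → ℝ}
    (he : Ind e) (g : ℕ) {f : V → ℝ} (hf : ∀ v, e v * f v = f v) :
    nrm π (fun v => e v * ((op P)^[g] f) v) ≤ ((∑ v, π v * e v) + lam ^ g) * nrm π f := by
  obtain ⟨m, hm⟩ : ∃ m, m = ∑ w, π w * f w := ⟨_, rfl⟩
  have e1 : (fun v => e v * ((op P)^[g] f) v) =
      fun v => m * e v + e v * ((op P)^[g] (fun v => f v - m)) v := by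
    have e2 : f = fun v => m + (f v - m) := by funext v; ring
    have e3 := iter_split h g m (fun v => f v - m)
    rw [← e2] at e3
    funext v
    rw [e3]
    ring
  rw [e1]
  refine le_trans (nrm_add π _ _) ?_
  rw [nrm_smul, add_mul]
  refine add_le_add ?_ ?_
  · have h1 : |m| ≤ nrm π e * nrm π f := by
      rw [hm]
      have := inner_le h.pos e f
      simp only [hf] at this
      exact this
    calc |m| * nrm π e ≤ nrm π e * nrm π f * nrm π e :=
          mul_le_mul_of_nonneg_right h1 (nrm_nonneg _ _)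
      _ = nrm π e ^ 2 * nrm π f := by ring
      _ = _ := by rw [nrm_ind h.pos he]
  · refine le_trans (nrm_mono h.pos (g := (op P)^[g] (fun v => f v - m)) fun v => ?_) ?_
    · rw [abs_mul, abs_of_nonneg (he.nonneg v)]
      exact mul_le_of_le_one_left (abs_nonneg _) (he.le_one v)
    · refine le_trans (nrm_iter h g ?_) (mul_le_mul_of_nonneg_left ?_ (pow_nonneg h.lam0 g))
      · rw [hm]; exact mean_center h f
      · rw [hm]; exact nrm_center h f

/-- correlation of two indicator functions -/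
theorem corr_ge {π : V → ℝ} {P : V → V → ℝ} {lam : ℝ} (h : Gap π P lam) {a b : V → ℝ}
    (ha : Ind a) (hb : Ind b) (g : ℕ) :
    (∑ v, π v * a v) * (∑ v, π v * b v) -
      lam ^ g * Real.sqrt ((∑ v, π v * a v) * (∑ v, π v * b v)) ≤
      ∑ v, π v * (a v * ((op P)^[g] b) v) := by
  obtain ⟨m, hm⟩ : ∃ m, m = ∑ w, π w * b w := ⟨_, rfl⟩
  have e2 : b = fun v => m + (b v - m) := by funext v; ring
  have e3 := iter_split h g m (fun v => b v - m)
  rw [← e2] at e3
  have e1 : ∑ v, π v * (a v * ((op P)^[g] b) v) = (∑ v, π v * a v) * m +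
      ∑ v, π v * (a v * ((op P)^[g] (fun v => b v - m)) v) := by
    rw [e3, sum_mul, ← sum_add_distrib]
    exact sum_congr rfl fun v _ => by ring
  have h1 := inner_le h.pos a ((op P)^[g] (fun v => b v - m))
  have h2 : nrm π ((op P)^[g] (fun v => b v - m)) ≤ lam ^ g * nrm π b := by
    refine le_trans (nrm_iter h g ?_) (mul_le_mul_of_nonneg_left ?_ (pow_nonneg h.lam0 g))
    · rw [hm]; exact mean_center h b
    · rw [hm]; exact nrm_center h b
  have h3 : nrm π a * (lam ^ g * nrm π b) =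
      lam ^ g * Real.sqrt ((∑ v, π v * a v) * (∑ v, π v * b v)) := by
    rw [← nrm_ind h.pos ha, ← nrm_ind h.pos hb, ← mul_pow,
      Real.sqrt_sq (mul_nonneg (nrm_nonneg _ _) (nrm_nonneg _ _))]
    ring
  have h4 := (abs_le.1 h1).1
  have h5 := mul_le_mul_of_nonneg_left h2 (nrm_nonneg π a)
  rw [e1, ← hm]
  rw [← hm] at h3
  linarith

/-- the iterated sums of products along chains of visits -/
def H (P : V → V → ℝ) (e : V → ℝ) (D : ℕ) : ℕ → V → ℝ
  | 0 => e
  | k + 1 => fun v => e v * ∑ g ∈ range (D + 1), ((op P)^[g] (H P e D k)) v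

theorem H_supp {P : V → V → ℝ} {e : V → ℝ} (he : Ind e) (D k : ℕ) (v : V) :
    e v * H P e D k v = H P e D k v := by
  cases k with
  | zero => simp only [H]; rcases he v with h | h <;> rw [h] <;> norm_num
  | succ k =>
    simp only [H]
    rw [← mul_assoc]
    rcases he v with h | h <;> rw [h] <;> norm_num

theorem H_nonneg {π : V → ℝ} {P : V → V → ℝ} {lam : ℝ} (h : Gap π P lam) {e : V → ℝ}
    (he : Ind e) (D k : ℕ) : ∀ v, 0 ≤ H P e D k v := by
  induction k with
  | zero => exact he.nonneg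
  | succ k ih =>
    intro v
    exact mul_nonneg (he.nonneg v) (sum_nonneg fun g _ => iter_nonneg h g ih v)

theorem geom_le {lam : ℝ} (h0 : 0 ≤ lam) (h1 : lam < 1) (n : ℕ) :
    ∑ g ∈ range n, lam ^ g ≤ 1 / (1 - lam) := by
  rw [geom_sum_eq h1.ne, ← neg_sub 1 (lam ^ n), ← neg_sub 1 lam, neg_div_neg_eq]
  have : 0 < 1 - lam := by linarith
  gcongr
  have := pow_nonneg h0 n
  linarith

theorem nrm_H {π : V → ℝ} {P : V → V → ℝ} {lam : ℝ} (h : Gap π P lam) {e : V → ℝ}
    (he : Ind e) {D : ℕ} (hD : D * ∑ v, π v * e v ≤ 1) (k : ℕ) :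
    nrm π (H P e D k) ≤ (3 / (1 - lam)) ^ k * nrm π e := by
  have h1 : 0 < 1 - lam := by linarith [h.lam1]
  have hp1 : ∑ v, π v * e v ≤ 1 := by
    rw [← h.sum]
    exact sum_le_sum fun v _ => mul_le_of_le_one_right (h.pos v) (he.le_one v)
  induction k with
  | zero => simp [H]
  | succ k ih =>
    have e1 : H P e D (k + 1) =
        fun v => ∑ g ∈ range (D + 1), e v * ((op P)^[g] (H P e D k)) v := by
      funext v
      simp only [H]
      rw [mul_sum]
    rw [e1]
    refine le_trans (nrm_sum π _ (fun g v => e v * ((op P)^[g] (H P e D k)) v)) ?_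
    have h2 : ∑ g ∈ range (D + 1), nrm π (fun v => e v * ((op P)^[g] (H P e D k)) v) ≤
        ∑ g ∈ range (D + 1), ((∑ v, π v * e v) + lam ^ g) * nrm π (H P e D k) :=
      sum_le_sum fun g _ => nrm_step h he g (H_supp he D k)
    refine h2.trans ?_
    rw [← sum_mul, sum_add_distrib, sum_const, card_range, nsmul_eq_mul]
    have h3 := geom_le h.lam0 h.lam1 (D + 1)
    have h4 : ((D + 1 : ℕ) : ℝ) * ∑ v, π v * e v ≤ 2 := by
      push_cast
      linarith
    have h5 : (1 : ℝ) ≤ 1 / (1 - lam) := by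
      rw [le_div_iff₀ h1]
      linarith [h.lam0]
    have h6 : ((D + 1 : ℕ) : ℝ) * ∑ v, π v * e v + ∑ g ∈ range (D + 1), lam ^ g ≤
        3 / (1 - lam) := by
      have : 3 / (1 - lam) = 3 * (1 / (1 - lam)) := by ring
      rw [this]
      linarith
    calc _ ≤ 3 / (1 - lam) * nrm π (H P e D k) :=
          mul_le_mul_of_nonneg_right h6 (nrm_nonneg _ _)
      _ ≤ 3 / (1 - lam) * ((3 / (1 - lam)) ^ k * nrm π e) :=
          mul_le_mul_of_nonneg_left ih (by positivity)
      _ = _ := by ring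

/-- the bound for the mean of `H` -/
theorem mean_H {π : V → ℝ} {P : V → V → ℝ} {lam : ℝ} (h : Gap π P lam) {e : V → ℝ}
    (he : Ind e) {D : ℕ} (hD : D * ∑ v, π v * e v ≤ 1) (k : ℕ) :
    ∑ v, π v * H P e D k v ≤ (3 / (1 - lam)) ^ k * ∑ v, π v * e v := by
  have h1 := inner_le h.pos e (H P e D k)
  simp only [H_supp he D k] at h1
  have h2 := nrm_H h he hD k
  calc ∑ v, π v * H P e D k v ≤ |∑ v, π v * H P e D k v| := le_abs_self _
    _ ≤ nrm π e * nrm π (H P e D k) := h1
    _ ≤ nrm π e * ((3 / (1 - lam)) ^ k * nrm π e) :=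
        mul_le_mul_of_nonneg_left h2 (nrm_nonneg _ _)
    _ = (3 / (1 - lam)) ^ k * nrm π e ^ 2 := by ring
    _ = _ := by rw [nrm_ind h.pos he]

end Pool.Agent.U195.SM
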