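import Pool.Agent.U195.SM.Exp
import Pool.Agent.TH49.Spl.Low

set_option autoImplicit false
set_option linter.unusedSectionVars false

/-! A sequence with many pairs of visits to the left and to the right part at a bounded distance has
many changes, unless the visits are clustered. -/

namespace Pool.Agent.U195.SM

open Finset
open Pool.Agent.TH49.Spl (cnt)

/-- `i ≤ j ≤ i + D` -/
def rel (D i j : ℕ) : ℝ := if i ≤ j ∧ j ≤ i + D then 1 else 0

theorem rel_nonneg (D i j : ℕ) : 0 ≤ rel D i j := by unfold rel; split_ifs <;> norm_num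

theorem fwd_range {D M : ℕ} {e : ℕ → ℝ} (he : ∀ t, M ≤ t → e t = 0) (k i : ℕ) :
    fwd D e (k + 1) i = e i * ∑ j ∈ range M, rel D i j * fwd D e k j := by
  have h0 : ∀ j, M ≤ j → fwd D e k j = 0 := by
    intro j hj
    cases k with
    | zero => exact he j hj
    | succ k => simp [fwd, he j hj]
  simp only [fwd]
  congr 1
  have e1 : ∑ g ∈ range (D + 1), fwd D e k (i + g) = ∑ j ∈ Ico i (i + D + 1), fwd D e k j := by
    rw [sum_Ico_eq_sum_range]
    have : i + D + 1 - i = D + 1 := by omega
    rw [this]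
  rw [e1]
  have e2 : ∑ j ∈ range M, rel D i j * fwd D e k j =
      ∑ j ∈ (range M).filter (fun j => i ≤ j ∧ j ≤ i + D), fwd D e k j := by
    rw [sum_filter]
    refine sum_congr rfl fun j _ => ?_
    unfold rel
    split_ifs <;> ring
  rw [e2]
  symm
  refine sum_subset ?_ ?_
  · intro j hj
    rw [mem_filter] at hj
    rw [mem_Ico]
    omega
  · intro j hj hj2
    rw [mem_Ico] at hj
    rw [mem_filter, mem_range] at hj2
    refine h0 j ?_
    by_contra hlt
    exact hj2 ⟨by omega, by omega, by omega⟩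

theorem sq_sum_le (s : Finset ℕ) {u : ℕ → ℝ} (hu : ∀ i, 0 ≤ u i) :
    (∑ i ∈ s, u i) ^ 2 ≤ 2 * ∑ i ∈ s, ∑ j ∈ s, (if i ≤ j then u i * u j else 0) := by
  have h1 : (∑ i ∈ s, u i) ^ 2 = ∑ i ∈ s, ∑ j ∈ s, u i * u j := by
    rw [sq, sum_mul_sum]
  have h2 : ∑ i ∈ s, ∑ j ∈ s, u i * u j ≤ ∑ i ∈ s, ∑ j ∈ s,
      ((if i ≤ j then u i * u j else 0) + (if j ≤ i then u j * u i else 0)) := by
    refine sum_le_sum fun i _ => sum_le_sum fun j _ => ?_
    have hij := mul_nonneg (hu i) (hu j)
    have hc : u j * u i = u i * u j := mul_comm _ _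
    rcases le_total i j with h | h
    · rw [if_pos h]
      split_ifs <;> linarith
    · rw [if_pos h]
      split_ifs <;> linarith
  have h3 : ∑ i ∈ s, ∑ j ∈ s, ((if i ≤ j then u i * u j else 0) + (if j ≤ i then u j * u i else 0)) =
      2 * ∑ i ∈ s, ∑ j ∈ s, (if i ≤ j then u i * u j else 0) := by
    simp only [sum_add_distrib]
    rw [sum_comm (f := fun i j => if j ≤ i then u j * u i else 0)]
    ring
  rw [h1]
  linarith

section

variable {D M : ℕ} {e : ℕ → ℝ}

/-- number of visits in a window before `t` -/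
def bwdV (D M : ℕ) (e : ℕ → ℝ) (t : ℕ) : ℝ := ∑ i ∈ range M, rel D i t * e i

/-- number of visits in a window after `t` -/
def fwdV (D M : ℕ) (e : ℕ → ℝ) (t : ℕ) : ℝ := ∑ k ∈ range M, rel D t k * e k

theorem bwd_sq (he0 : ∀ t, 0 ≤ e t) (t : ℕ) : bwdV D M e t ^ 2 ≤
    2 * ∑ i ∈ range M, ∑ j ∈ range M, rel D i j * rel D j t * (e i * e j) := by
  unfold bwdV
  refine le_trans (sq_sum_le (range M) fun i => mul_nonneg (rel_nonneg D i t) (he0 i)) ?_
  refine mul_le_mul_of_nonneg_left ?_ (by norm_num)
  refine sum_le_sum fun i _ => sum_le_sum fun j _ => ?_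
  have hij := mul_nonneg (he0 i) (he0 j)
  split_ifs with h
  · have h2 : rel D i t * rel D j t ≤ rel D i j * rel D j t := by
      unfold rel
      split_ifs <;> first | omega | norm_num
    calc rel D i t * e i * (rel D j t * e j) = rel D i t * rel D j t * (e i * e j) := by ring
      _ ≤ _ := mul_le_mul_of_nonneg_right h2 hij
  · exact mul_nonneg (mul_nonneg (rel_nonneg _ _ _) (rel_nonneg _ _ _)) hij

theorem fwd_sq (he0 : ∀ t, 0 ≤ e t) (t : ℕ) : fwdV D M e t ^ 2 ≤
    2 * ∑ k ∈ range M, ∑ l ∈ range M, rel D t k * rel D k l * (e k * e l) := by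
  unfold fwdV
  refine le_trans (sq_sum_le (range M) fun i => mul_nonneg (rel_nonneg D t i) (he0 i)) ?_
  refine mul_le_mul_of_nonneg_left ?_ (by norm_num)
  refine sum_le_sum fun i _ => sum_le_sum fun j _ => ?_
  have hij := mul_nonneg (he0 i) (he0 j)
  split_ifs with h
  · have h2 : rel D t i * rel D t j ≤ rel D t i * rel D i j := by
      unfold rel
      split_ifs <;> first | omega | norm_num
    calc rel D t i * e i * (rel D t j * e j) = rel D t i * rel D t j * (e i * e j) := by ring
      _ ≤ _ := mul_le_mul_of_nonneg_right h2 hij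
  · exact mul_nonneg (mul_nonneg (rel_nonneg _ _ _) (rel_nonneg _ _ _)) hij

theorem bwdV_nonneg (he0 : ∀ t, 0 ≤ e t) (t : ℕ) : 0 ≤ bwdV D M e t :=
  sum_nonneg fun i _ => mul_nonneg (rel_nonneg D i t) (he0 i)

theorem fwdV_nonneg (he0 : ∀ t, 0 ≤ e t) (t : ℕ) : 0 ≤ fwdV D M e t :=
  sum_nonneg fun i _ => mul_nonneg (rel_nonneg D t i) (he0 i)

/-- the second moment of the numbers of pairs around the visits -/
theorem second_moment (he0 : ∀ t, 0 ≤ e t) (he : ∀ t, M ≤ t → e t = 0) :
    ∑ t ∈ range M, e t * (bwdV D M e t * fwdV D M e t) ^ 2 ≤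
      4 * ∑ i ∈ range M, fwd D e 4 i := by
  have h4 : ∀ i, fwd D e 4 i = ∑ j ∈ range M, ∑ t ∈ range M,
      (rel D i j * rel D j t * (e i * e j)) * (e t *
        ∑ k ∈ range M, ∑ l ∈ range M, rel D t k * rel D k l * (e k * e l)) := by
    intro i
    rw [fwd_range he 3 i, mul_sum]
    refine sum_congr rfl fun j _ => ?_
    rw [fwd_range he 2 j, mul_sum, mul_sum, mul_sum]
    refine sum_congr rfl fun t _ => ?_
    rw [fwd_range he 1 t]
    have e2 : ∑ k ∈ range M, rel D t k * fwd D e 1 k =
        ∑ k ∈ range M, ∑ l ∈ range M, rel D t k * rel D k l * (e k * e l) := by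
      refine sum_congr rfl fun k _ => ?_
      rw [fwd_range he 0 k, mul_sum, mul_sum]
      refine sum_congr rfl fun l _ => ?_
      simp only [fwd]
      ring
    rw [e2]
    ring
  have h5 : ∑ i ∈ range M, fwd D e 4 i = ∑ t ∈ range M,
      (∑ i ∈ range M, ∑ j ∈ range M, rel D i j * rel D j t * (e i * e j)) * (e t *
        ∑ k ∈ range M, ∑ l ∈ range M, rel D t k * rel D k l * (e k * e l)) := by
    rw [sum_congr rfl fun i _ => h4 i]
    simp only [sum_mul]
    have e3 : ∀ i ∈ range M, ∑ j ∈ range M, ∑ t ∈ range M,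
        (rel D i j * rel D j t * (e i * e j)) * (e t *
          ∑ k ∈ range M, ∑ l ∈ range M, rel D t k * rel D k l * (e k * e l)) =
        ∑ t ∈ range M, ∑ j ∈ range M,
        (rel D i j * rel D j t * (e i * e j)) * (e t *
          ∑ k ∈ range M, ∑ l ∈ range M, rel D t k * rel D k l * (e k * e l)) :=
      fun i _ => sum_comm
    rw [sum_congr rfl e3, sum_comm]
  rw [h5, mul_sum]
  refine sum_le_sum fun t _ => ?_
  have b1 := bwd_sq (D := D) (M := M) he0 t
  have b2 := fwd_sq (D := D) (M := M) he0 t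
  obtain ⟨x, hx⟩ : ∃ x, x = ∑ i ∈ range M, ∑ j ∈ range M, rel D i j * rel D j t * (e i * e j) :=
    ⟨_, rfl⟩
  obtain ⟨y, hy⟩ : ∃ y, y = ∑ k ∈ range M, ∑ l ∈ range M, rel D t k * rel D k l * (e k * e l) :=
    ⟨_, rfl⟩
  rw [← hx] at b1 ⊢
  rw [← hy] at b2 ⊢
  rw [mul_pow]
  have h6 : bwdV D M e t ^ 2 * fwdV D M e t ^ 2 ≤ (2 * x) * (2 * y) :=
    mul_le_mul b1 b2 (sq_nonneg _) (le_trans (sq_nonneg _) b1)
  calc e t * (bwdV D M e t ^ 2 * fwdV D M e t ^ 2) ≤ e t * ((2 * x) * (2 * y)) :=
        mul_le_mul_of_nonneg_left h6 (he0 t)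
    _ = 4 * (x * (e t * y)) := by ring

end

/-- the first request in `[l, r)` is in `[m, r)` -/
def nxt (l m r : ℕ) : List ℕ → Prop
  | [] => False
  | x :: X => if l ≤ x ∧ x < m then False else if m ≤ x ∧ x < r then True else nxt l m r X

open Classical in
theorem cnt_true (l m r : ℕ) (X : List ℕ) :
    cnt l m r true X = (if nxt l m r X then 1 else 0) + cnt l m r false X := by
  induction X with
  | nil => simp [cnt, nxt]
  | cons x X ih =>
    simp only [cnt, nxt]
    by_cases h1 : l ≤ x ∧ x < m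
    · simp [h1]
    · by_cases h2 : m ≤ x ∧ x < r
      · simp [h1, h2]
      · simp only [h1, h2, if_false]
        exact ih

/-- the request number `t` is in `[l, m)`, and the next one in `[l, r)` is in `[m, r)` -/
def alt (l m r : ℕ) (Y : List ℕ) (t : ℕ) : Prop :=
  (∃ x, Y[t]? = some x ∧ l ≤ x ∧ x < m) ∧ nxt l m r (Y.drop (t + 1))

open Classical in
theorem cnt_false (l m r : ℕ) (Y : List ℕ) :
    (cnt l m r false Y : ℝ) = ∑ t ∈ range Y.length, if alt l m r Y t then (1 : ℝ) else 0 := by
  induction Y with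
  | nil => simp [cnt]
  | cons x X ih =>
    rw [List.length_cons, sum_range_succ']
    have e1 : ∑ t ∈ range X.length, (if alt l m r (x :: X) (t + 1) then (1 : ℝ) else 0) =
        ∑ t ∈ range X.length, if alt l m r X t then (1 : ℝ) else 0 := by
      refine sum_congr rfl fun t _ => ?_
      have e3 : alt l m r (x :: X) (t + 1) ↔ alt l m r X t := by
        simp only [alt, List.getElem?_cons_succ, List.drop_succ_cons]
      by_cases h : alt l m r X t
      · rw [if_pos h, if_pos (e3.2 h)]
      · rw [if_neg h, if_neg (fun h' => h (e3.1 h'))]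
    rw [e1, ← ih]
    have e2 : alt l m r (x :: X) 0 ↔ (l ≤ x ∧ x < m) ∧ nxt l m r X := by
      simp [alt]
    simp only [cnt]
    by_cases h1 : l ≤ x ∧ x < m
    · rw [if_pos h1, cnt_true]
      by_cases h2 : nxt l m r X
      · rw [if_pos h2, if_pos (e2.2 ⟨h1, h2⟩)]
        push_cast
        ring
      · rw [if_neg h2, if_neg (fun h => h2 (e2.1 h).2)]
        push_cast
        ring
    · rw [if_neg h1, if_neg (fun h => h1 (e2.1 h).1)]
      by_cases h2 : m ≤ x ∧ x < r
      · rw [if_pos h2]
        simp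
      · rw [if_neg h2]
        simp

theorem nxt_of {l m r : ℕ} : ∀ (j : ℕ) (Y : List ℕ) (x : ℕ), Y[j]? = some x → m ≤ x → x < r →
    (∀ c < j, ¬ ∃ y, Y[c]? = some y ∧ l ≤ y ∧ y < m) → nxt l m r Y := by
  intro j
  induction j with
  | zero =>
    intro Y x h1 h2 h3 _
    cases Y with
    | nil => simp at h1
    | cons y Y =>
      simp only [List.getElem?_cons_zero, Option.some.injEq] at h1
      subst h1
      simp only [nxt]
      rw [if_neg (by omega), if_pos ⟨h2, h3⟩]
      trivial
  | succ j ih =>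
    intro Y x h1 h2 h3 h4
    cases Y with
    | nil => simp at h1
    | cons y Y =>
      rw [List.getElem?_cons_succ] at h1
      simp only [nxt]
      have h5 : ¬ (l ≤ y ∧ y < m) := fun h => h4 0 (by omega) ⟨y, by simp, h⟩
      rw [if_neg h5]
      by_cases h6 : m ≤ y ∧ y < r
      · rw [if_pos h6]
        trivial
      · rw [if_neg h6]
        refine ih Y x h1 h2 h3 fun c hc h => h4 (c + 1) (by omega) ?_
        obtain ⟨z, hz⟩ := h
        exact ⟨z, by rw [List.getElem?_cons_succ]; exact hz.1, hz.2⟩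

theorem exists_alt {l m r : ℕ} {Y : List ℕ} : ∀ (n i k : ℕ), k - i ≤ n → i < k →
    (∃ x, Y[i]? = some x ∧ l ≤ x ∧ x < m) → (∃ x, Y[k]? = some x ∧ m ≤ x ∧ x < r) →
    ∃ t, i ≤ t ∧ t < k ∧ alt l m r Y t := by
  intro n
  induction n with
  | zero => intro i k h1 h2; omega
  | succ n ih =>
    intro i k h1 h2 hA hB
    by_cases h : ∃ i', i < i' ∧ i' < k ∧ ∃ x, Y[i']? = some x ∧ l ≤ x ∧ x < m
    · obtain ⟨i', q1, q2, q3⟩ := h
      obtain ⟨t, t1, t2, t3⟩ := ih i' k (by omega) q2 q3 hB
      exact ⟨t, by omega, t2, t3⟩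
    · refine ⟨i, le_refl i, h2, hA, ?_⟩
      obtain ⟨x, x1, x2, x3⟩ := hB
      refine nxt_of (k - (i + 1)) _ x ?_ x2 x3 ?_
      · rw [List.getElem?_drop]
        have : i + 1 + (k - (i + 1)) = k := by omega
        rw [this]
        exact x1
      · rintro c hc ⟨y, y1, y2, y3⟩
        rw [List.getElem?_drop] at y1
        exact h ⟨i + 1 + c, by omega, by omega, y, y1, y2, y3⟩

variable {V : Type} [Fintype V]

/-- indicator function of the states with a label in `[l, r)` -/
def ind (κ : V → ℕ) (l r : ℕ) : V → ℝ := fun v => if l ≤ κ v ∧ κ v < r then 1 else 0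

theorem ind_ind (κ : V → ℕ) (l r : ℕ) : Ind (ind κ l r) := by
  intro v
  unfold ind
  split_ifs
  · right; rfl
  · left; rfl

theorem at_ind_cases (κ : V → ℕ) (l r : ℕ) (X : List V) (t : ℕ) :
    (at' (ind κ l r) X t = 1 ∧ ∃ x, (X.map κ)[t]? = some x ∧ l ≤ x ∧ x < r) ∨
      at' (ind κ l r) X t = 0 := by
  unfold at'
  rw [List.getElem?_map]
  cases h : X[t]? with
  | none => right; rfl
  | some v =>
    simp only [Option.elim, Option.map_some, Option.some.injEq, ind]
    split_ifs with h1
    · left; exact ⟨rfl, κ v, rfl, h1⟩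
    · right; rfl

open Classical in
/-- the number of pairs is bounded by the number of changes -/
theorem pairs_le (κ : V → ℕ) {l m r : ℕ} (hlm : l ≤ m) (hmr : m ≤ r) (G D : ℕ) (X : List V)
    {θ : ℝ} (hθ : 0 < θ) :
    ∑ i ∈ range X.length, ∑ g ∈ Ioc G D, at' (ind κ l m) X i * at' (ind κ m r) X (i + g) ≤
      θ * cnt l m r false (X.map κ) +
        1 / θ * ∑ i ∈ range X.length, fwd D (at' (ind κ l r) X) 4 i := by
  obtain ⟨M, hM⟩ : ∃ M, M = X.length := ⟨_, rfl⟩
  obtain ⟨a, ha⟩ : ∃ a, a = at' (ind κ l m) X := ⟨_, rfl⟩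
  obtain ⟨b, hb⟩ : ∃ b, b = at' (ind κ m r) X := ⟨_, rfl⟩
  obtain ⟨e, he⟩ : ∃ e, e = at' (ind κ l r) X := ⟨_, rfl⟩
  have ha0 : ∀ t, 0 ≤ a t := by rw [ha]; exact at_nonneg (ind_ind κ l m) X
  have hb0 : ∀ t, 0 ≤ b t := by rw [hb]; exact at_nonneg (ind_ind κ m r) X
  have he0 : ∀ t, 0 ≤ e t := by rw [he]; exact at_nonneg (ind_ind κ l r) X
  have heM : ∀ t, M ≤ t → e t = 0 := by
    intro t ht; rw [he]; exact at_len _ (by rw [← hM]; exact ht)
  have hbM : ∀ t, M ≤ t → b t = 0 := by
    intro t ht; rw [hb]; exact at_len _ (by rw [← hM]; exact ht)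
  have hae : ∀ t, a t ≤ e t := by
    intro t
    rw [ha, he]
    unfold at'
    cases X[t]? with
    | none => simp
    | some v =>
      simp only [Option.elim, ind]
      split_ifs <;> first | omega | norm_num
  have hbe : ∀ t, b t ≤ e t := by
    intro t
    rw [hb, he]
    unfold at'
    cases X[t]? with
    | none => simp
    | some v =>
      simp only [Option.elim, ind]
      split_ifs <;> first | omega | norm_num
  obtain ⟨α, hα⟩ : ∃ α : ℕ → ℝ, α = fun t => if alt l m r (X.map κ) t then (1 : ℝ) else 0 :=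
    ⟨_, rfl⟩
  have hα0 : ∀ t, 0 ≤ α t := by intro t; rw [hα]; dsimp only; split_ifs <;> norm_num
  have hαe : ∀ t, α t ≤ e t := by
    intro t
    rw [hα]
    dsimp only
    split_ifs with h
    · obtain ⟨⟨x, x1, x2, x3⟩, -⟩ := h
      rw [he]
      unfold at'
      rw [List.getElem?_map] at x1
      cases hX : X[t]? with
      | none => rw [hX] at x1; simp at x1
      | some v =>
        rw [hX] at x1
        simp only [Option.map_some, Option.some.injEq] at x1
        simp only [Option.elim, ind]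
        rw [if_pos (by omega)]
    · exact he0 t
  rw [← ha, ← hb, ← he, ← hM]
  -- every pair has a change in between
  have hpair : ∀ i g, 1 ≤ g → i + g < M → a i * b (i + g) ≤
      ∑ t ∈ range M, α t * (rel D i t * a i) * (if t < i + g then b (i + g) else 0) ∨
        D < g := by
    intro i g hg hig
    by_cases hDg : D < g
    · right; exact hDg
    left
    rcases at_ind_cases κ l m X i with h1 | h1
    · rcases at_ind_cases κ m r X (i + g) with h2 | h2
      · obtain ⟨t, t1, t2, t3⟩ := exists_alt (g) i (i + g) (by omega) (by omega) h1.2 h2.2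
        have h3 : a i * b (i + g) = α t * (rel D i t * a i) * (if t < i + g then b (i + g) else 0) := by
          have q1 : α t = 1 := by rw [hα]; dsimp only; rw [if_pos t3]
          have q2 : rel D i t = 1 := by unfold rel; rw [if_pos (by omega)]
          rw [q1, q2, if_pos t2]
          ring
        rw [h3]
        refine single_le_sum (f := fun t => α t * (rel D i t * a i) *
          (if t < i + g then b (i + g) else 0)) (fun t _ => ?_) (by rw [mem_range]; omega)
        refine mul_nonneg (mul_nonneg (hα0 t) (mul_nonneg (rel_nonneg _ _ _) (ha0 i))) ?_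
        split_ifs
        · exact hb0 _
        · exact le_refl _
      · rw [hb, h2, mul_zero]
        refine sum_nonneg fun t _ => ?_
        simp
    · rw [ha, h1, zero_mul]
      refine sum_nonneg fun t _ => ?_
      simp
  -- the number of pairs around a change
  have hkey : ∑ i ∈ range M, ∑ g ∈ Ioc G D, a i * b (i + g) ≤
      ∑ t ∈ range M, α t * (bwdV D M e t * fwdV D M e t) := by
    have k1 : ∑ i ∈ range M, ∑ g ∈ Ioc G D, a i * b (i + g) ≤ ∑ i ∈ range M, ∑ g ∈ Ioc G D,
        ∑ t ∈ range M, α t * (rel D i t * a i) * (if t < i + g then b (i + g) else 0) := by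
      refine sum_le_sum fun i _ => sum_le_sum fun g hg => ?_
      rw [mem_Ioc] at hg
      by_cases hig : i + g < M
      · rcases hpair i g (by omega) hig with h | h
        · exact h
        · omega
      · rw [hbM (i + g) (by omega), mul_zero]
        refine sum_nonneg fun t _ => ?_
        simp
    have k2 : ∑ i ∈ range M, ∑ g ∈ Ioc G D,
        ∑ t ∈ range M, α t * (rel D i t * a i) * (if t < i + g then b (i + g) else 0) =
        ∑ t ∈ range M, ∑ i ∈ range M, α t * (rel D i t * a i) *
          ∑ g ∈ Ioc G D, (if t < i + g then b (i + g) else 0) := by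
      have : ∀ i ∈ range M, ∑ g ∈ Ioc G D,
          ∑ t ∈ range M, α t * (rel D i t * a i) * (if t < i + g then b (i + g) else 0) =
          ∑ t ∈ range M, α t * (rel D i t * a i) *
            ∑ g ∈ Ioc G D, (if t < i + g then b (i + g) else 0) := by
        intro i _
        rw [sum_comm]
        refine sum_congr rfl fun t _ => ?_
        rw [mul_sum]
      rw [sum_congr rfl this, sum_comm]
    refine k1.trans ?_
    rw [k2]
    refine sum_le_sum fun t ht => ?_
    have k3 : ∀ i ∈ range M, α t * (rel D i t * a i) *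
        ∑ g ∈ Ioc G D, (if t < i + g then b (i + g) else 0) ≤
        α t * (rel D i t * e i) * fwdV D M e t := by
      intro i _
      by_cases hit : i ≤ t ∧ t ≤ i + D
      · have k4 : ∑ g ∈ Ioc G D, (if t < i + g then b (i + g) else 0) ≤ fwdV D M e t := by
          have k5 : ∑ g ∈ Ioc G D, (if t < i + g then b (i + g) else 0) =
              ∑ k ∈ Ioc (i + G) (i + D), (if t < k then b k else 0) := by
            rw [← map_add_left_Ioc, sum_map]
            rfl
          rw [k5]
          unfold fwdV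
          have k6 : ∑ k ∈ Ioc (i + G) (i + D), (if t < k then b k else 0) =
              ∑ k ∈ (Ioc (i + G) (i + D)).filter (fun k => t < k ∧ k < M), b k := by
            rw [sum_filter]
            refine sum_congr rfl fun k _ => ?_
            by_cases c1 : t < k
            · by_cases c2 : k < M
              · rw [if_pos c1, if_pos ⟨c1, c2⟩]
              · rw [if_pos c1, if_neg (fun h => c2 h.2), hbM k (by omega)]
            · rw [if_neg c1, if_neg (fun h => c1 h.1)]
          have k7 : ∑ k ∈ range M, rel D t k * e k =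
              ∑ k ∈ (range M).filter (fun k => t ≤ k ∧ k ≤ t + D), e k := by
            rw [sum_filter]
            refine sum_congr rfl fun j _ => ?_
            unfold rel
            split_ifs <;> ring
          rw [k6, k7]
          refine le_trans (sum_le_sum fun k _ => hbe k) ?_
          refine sum_le_sum_of_subset_of_nonneg ?_ fun k _ _ => he0 k
          intro k hk
          rw [mem_filter, mem_Ioc] at hk
          rw [mem_filter, mem_range]
          omega
        have k8 : 0 ≤ ∑ g ∈ Ioc G D, (if t < i + g then b (i + g) else 0) := by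
          refine sum_nonneg fun g _ => ?_
          split_ifs
          · exact hb0 _
          · exact le_refl _
        refine mul_le_mul ?_ k4 k8 ?_
        · exact mul_le_mul_of_nonneg_left (mul_le_mul_of_nonneg_left (hae i) (rel_nonneg _ _ _))
            (hα0 t)
        · exact mul_nonneg (hα0 t) (mul_nonneg (rel_nonneg _ _ _) (he0 i))
      · have : rel D i t = 0 := by unfold rel; rw [if_neg hit]
        rw [this]
        simp
    refine (sum_le_sum k3).trans (le_of_eq ?_)
    rw [← sum_mul, ← mul_sum]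
    unfold bwdV
    ring
  have hθ4 : ∀ x : ℝ, x ≤ θ + 1 / (4 * θ) * x ^ 2 := by
    intro x
    have : θ + 1 / (4 * θ) * x ^ 2 - x = (x - 2 * θ) ^ 2 / (4 * θ) := by
      field_simp
      ring
    have h2 : 0 ≤ (x - 2 * θ) ^ 2 / (4 * θ) := by positivity
    linarith
  have hs := second_moment (D := D) (M := M) he0 heM
  have hfin : ∑ t ∈ range M, α t * (bwdV D M e t * fwdV D M e t) ≤
      θ * ∑ t ∈ range M, α t + 1 / (4 * θ) *
        ∑ t ∈ range M, e t * (bwdV D M e t * fwdV D M e t) ^ 2 := by
    rw [mul_sum, mul_sum, ← sum_add_distrib]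
    refine sum_le_sum fun t _ => ?_
    have q1 := mul_le_mul_of_nonneg_left (hθ4 (bwdV D M e t * fwdV D M e t)) (hα0 t)
    have q2 : α t * (1 / (4 * θ) * (bwdV D M e t * fwdV D M e t) ^ 2) ≤
        e t * (1 / (4 * θ) * (bwdV D M e t * fwdV D M e t) ^ 2) :=
      mul_le_mul_of_nonneg_right (hαe t) (by positivity)
    calc α t * (bwdV D M e t * fwdV D M e t) ≤
          α t * (θ + 1 / (4 * θ) * (bwdV D M e t * fwdV D M e t) ^ 2) := q1
      _ = θ * α t + α t * (1 / (4 * θ) * (bwdV D M e t * fwdV D M e t) ^ 2) := by ring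
      _ ≤ θ * α t + e t * (1 / (4 * θ) * (bwdV D M e t * fwdV D M e t) ^ 2) := by linarith
      _ = _ := by ring
  have hcnt := cnt_false l m r (X.map κ)
  rw [List.length_map, ← hM] at hcnt
  have hcnt2 : (cnt l m r false (X.map κ) : ℝ) = ∑ t ∈ range M, α t := by rw [hcnt, hα]
  rw [hcnt2]
  refine hkey.trans (hfin.trans ?_)
  have h9 : 1 / (4 * θ) * ∑ t ∈ range M, e t * (bwdV D M e t * fwdV D M e t) ^ 2 ≤
      1 / (4 * θ) * (4 * ∑ i ∈ range M, fwd D e 4 i) :=
    mul_le_mul_of_nonneg_left hs (by positivity)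
  have h10 : 1 / (4 * θ) * (4 * ∑ i ∈ range M, fwd D e 4 i) =
      1 / θ * ∑ i ∈ range M, fwd D e 4 i := by
    field_simp
  linarith

end Pool.Agent.U195.SM
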