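import Pool.Agent.U195.SM.Ent
import Pool.Agent.TH49.Spl.Pot

set_option autoImplicit false
set_option linter.unusedSectionVars false

/-! Splaying the requests of a Markov chain with a spectral gap. -/

namespace Pool.Agent.U195.SM

open Finset
open Pool.Agent.H581R2.Splay Pool.Agent.TH49.Spl

theorem wt_eq (w : ℕ → ℝ) (t : Tr) : wt w t = ((keys t).map w).sum := by
  induction t with
  | nil => simp [wt, keys]
  | node a l r ihl ihr =>
    simp only [wt, keys, List.map_append, List.map_cons, List.sum_append, List.sum_cons, ihl, ihr]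
    ring

theorem pot_ge {w : ℕ → ℝ} (hw : ∀ a, 0 < w a) (t : Tr) :
    ((keys t).map (fun a => Real.logb 2 (w a))).sum ≤ pot w t := by
  induction t with
  | nil => simp [pot, keys]
  | node a l r ihl ihr =>
    simp only [pot, keys, List.map_append, List.map_cons, List.sum_append, List.sum_cons]
    have h1 : w a ≤ wt w (Tr.node a l r) := by
      simp only [wt]
      have := wt_nonneg hw l
      have := wt_nonneg hw r
      linarith
    have := logb_mono (hw a) h1
    linarith

theorem pot_le {w : ℕ → ℝ} (hw : ∀ a, 0 < w a) {B : ℝ} (t : Tr) : wt w t ≤ B →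
    pot w t ≤ (keys t).length * Real.logb 2 B := by
  induction t with
  | nil => intro _; simp [pot, keys]
  | node a l r ihl ihr =>
    intro hB
    have h0 := wt_pos hw a l r
    have h1 := logb_mono h0 hB
    have e : wt w (Tr.node a l r) = w a + wt w l + wt w r := rfl
    have nl := wt_nonneg hw l
    have nr := wt_nonneg hw r
    have na := hw a
    have h2 := ihl (by linarith)
    have h3 := ihr (by linarith)
    simp only [pot, keys, List.length_append, List.length_cons]
    push_cast
    linarith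

theorem cost_le {w : ℕ → ℝ} (hw : ∀ a, 0 < w a) {W : ℝ} : ∀ (Y : List ℕ) (T : Tr), IsBST T →
    wt w T = W → (∀ y ∈ Y, y ∈ keys T) →
    (costSplay T Y : ℝ) + ((keys T).map (fun a => Real.logb 2 (w a))).sum ≤
      (Y.map (fun y => 2 + 3 * (Real.logb 2 W - Real.logb 2 (w y)))).sum + pot w T := by
  intro Y
  induction Y with
  | nil =>
    intro T _ _ _
    simp only [costSplay, List.map_nil, List.sum_nil, Nat.cast_zero, zero_add]
    exact pot_ge hw T
  | cons y Y ih =>
    intro T hT hW hY
    obtain ⟨h1, h2, h3⟩ := waccess hw hT (hY y (by simp))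
    have h4 := ih (splay y T) (by unfold IsBST; rw [h1]; exact hT) (by rw [h2, hW])
      (fun z hz => by rw [h1]; exact hY z (by simp [hz]))
    rw [h1] at h4
    rw [hW] at h3
    simp only [costSplay, List.map_cons, List.sum_cons]
    push_cast
    linarith

variable {V : Type} [Fintype V] {π : V → ℝ} {P : V → V → ℝ} {lam : ℝ}

theorem label_sum {κ : V → ℕ} {K : Finset ℕ} (hκ : ∀ v, κ v ∈ K) (g : ℕ → ℝ) :
    ∑ v, π v * g (κ v) = ∑ x ∈ K, pt π κ x * g x := by
  unfold pt mass
  simp only [sum_mul]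
  rw [sum_comm]
  refine sum_congr rfl fun v _ => ?_
  rw [sum_eq_single (κ v)]
  · unfold ind
    rw [if_pos (by omega)]
    ring
  · intro b _ hb
    unfold ind
    rw [if_neg (by omega)]
    ring
  · intro hn
    exact absurd (hκ v) hn

/-- the interleave bound for the mean of the optimum -/
theorem opt_ge (h : Gap π P lam) {T : Tr} (hT : IsBST T) {κ : V → ℕ} (hκ : ∀ v, κ v ∈ keys T)
    (M : ℕ) {s : AS} {l r : ℕ} (h1 : ok s l r) (h2 : Clean s) :
    Ev π P κ M s l r ≤ 2 * expect P M π (fun X => (optAny (keys T) (X.map κ) : ℝ)) := by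
  rw [← expect_smul]
  refine expect_mono h.nonneg M h.pos fun X _ => ?_
  have h3 : (Pool.Agent.TH49.Spl.val s l r (X.map κ) : ℝ) / 2 ≤
      (optAny (keys T) (X.map κ) : ℝ) := by
    refine optAny_ge (T := T) rfl fun T' c hk hE => ?_
    have h4 := exec_val hE (by unfold IsBST; rw [hk]; exact hT) (fun x hx => by
      rw [hk]
      rw [List.mem_map] at hx
      obtain ⟨v, -, rfl⟩ := hx
      exact hκ v) s l r h1 (clean_inv T' s l r h2)
    rw [clean_cred s h2] at h4
    have h5 : (Pool.Agent.TH49.Spl.val s l r (X.map κ) : ℝ) ≤ 2 * c := by exact_mod_cast h4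
    linarith
  linarith

theorem opt_ge_len (h : Gap π P lam) {T : Tr} {κ : V → ℕ} (M : ℕ) :
    (M : ℝ) ≤ expect P M π (fun X => (optAny (keys T) (X.map κ) : ℝ)) := by
  have h1 : expect P M π (fun _ => (M : ℝ)) ≤
      expect P M π (fun X => (optAny (keys T) (X.map κ) : ℝ)) := by
    refine expect_mono h.nonneg M h.pos fun X hX => ?_
    refine optAny_ge (T := T) rfl fun T' c _ hE => ?_
    have := exec_length hE
    rw [List.length_map, hX] at this
    exact_mod_cast this
  rwa [expect_const h.row M h.sum] at h1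

/-- the mean of the optimum is bounded below by the entropy of the labels -/
theorem opt_ent (h : Gap π P lam) {T : Tr} (hT : IsBST T) {κ : V → ℕ} (hκ : ∀ v, κ v ∈ keys T)
    {M R : ℕ} (hM : 1 ≤ M) (hR : ∀ v, κ v < R) :
    M * ent π κ (keys T).toFinset 0 R ≤
      4800772 / (1 - lam) ^ 4 * expect P M π (fun X => (optAny (keys T) (X.map κ) : ℝ)) +
        2 * ((keys T).length * Real.log (keys T).length) := by
  have hl : 0 < 1 - lam := by linarith [h.lam1]
  have hMr : (0 : ℝ) < M := by exact_mod_cast hM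
  obtain ⟨s, s1, s2, s3⟩ := scheme h (K := (keys T).toFinset)
    (fun v => List.mem_toFinset.2 (hκ v)) hM (List.toFinset_card_le _) R 0 R (by omega) (by omega)
  have hm : mass π κ 0 R = 1 := by
    rw [← h.sum]
    unfold mass
    refine sum_congr rfl fun v _ => ?_
    unfold ind
    rw [if_pos ⟨by omega, hR v⟩, mul_one]
  rw [hm] at s3
  have h1 := opt_ge h hT hκ M s1 s2
  obtain ⟨O, hO⟩ : ∃ O, O = expect P M π (fun X => (optAny (keys T) (X.map κ) : ℝ)) := ⟨_, rfl⟩
  have h2 : (M : ℝ) ≤ O := by rw [hO]; exact opt_ge_len h M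
  rw [← hO] at h1 ⊢
  obtain ⟨L, hL⟩ : ∃ L, L = 1 - lam := ⟨_, rfl⟩
  rw [← hL] at s3 hl ⊢
  have hL1 : L ≤ 1 := by rw [hL]; linarith [h.lam0]
  obtain ⟨n, hn⟩ : ∃ n, n = (keys T).length := ⟨_, rfl⟩
  rw [← hn] at s3 ⊢
  have hcard : ((part (keys T).toFinset 0 R).card : ℝ) ≤ n := by
    rw [hn]
    exact_mod_cast (card_filter_le _ _).trans (List.toFinset_card_le _)
  obtain ⟨q, hq⟩ : ∃ q, q = ((part (keys T).toFinset 0 R).card : ℝ) := ⟨_, rfl⟩
  obtain ⟨E, hE⟩ : ∃ E, E = ent π κ (keys T).toFinset 0 R := ⟨_, rfl⟩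
  rw [← hq] at s3 hcard
  rw [← hE] at s3 ⊢
  have hlog : 0 ≤ Real.log n := Real.log_natCast_nonneg n
  have h3 : L ^ 4 / 2400000 * M * E ≤ 2 * O + L ^ 4 / 2400000 * M *
      (4 + 768 / L ^ 2 + n * (2 / M * Real.log n)) := by
    refine s3.trans (add_le_add h1 (mul_le_mul_of_nonneg_left ?_ (by positivity))) 
    have e1 : 3 * (1 : ℝ) ^ 2 / (L ^ 2 / 256) = 768 / L ^ 2 := by field_simp; norm_num
    rw [e1]
    have := mul_le_mul_of_nonneg_right hcard (show 0 ≤ 2 / (M : ℝ) * Real.log n by positivity)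
    linarith
  have h4 : M * E ≤ 4800000 / L ^ 4 * O + M * (4 + 768 / L ^ 2) + 2 * (n * Real.log n) := by
    have e2 := mul_le_mul_of_nonneg_left h3 (show 0 ≤ 2400000 / L ^ 4 by positivity)
    have e3 : 2400000 / L ^ 4 * (L ^ 4 / 2400000 * M * E) = M * E := by field_simp
    have e4 : 2400000 / L ^ 4 * (2 * O + L ^ 4 / 2400000 * M *
        (4 + 768 / L ^ 2 + n * (2 / M * Real.log n))) =
        4800000 / L ^ 4 * O + M * (4 + 768 / L ^ 2) + 2 * (n * Real.log n) := by
      field_simp
      ring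
    rw [e3, e4] at e2
    exact e2
  have h5 : 4 + 768 / L ^ 2 ≤ 772 / L ^ 4 := by
    have l2 : L ^ 2 ≤ 1 := by nlinarith
    have l4 : L ^ 4 ≤ 1 := by nlinarith [sq_nonneg (L ^ 2), sq_nonneg L]
    have l5 : L ^ 4 ≤ L ^ 2 := by nlinarith [sq_nonneg L]
    have f1 : (4 : ℝ) ≤ 4 / L ^ 4 := by
      rw [le_div_iff₀ (by positivity)]
      linarith
    have f2 : 768 / L ^ 2 ≤ 768 / L ^ 4 := div_le_div_of_nonneg_left (by norm_num) (by positivity) l5
    have f3 : 772 / L ^ 4 = 4 / L ^ 4 + 768 / L ^ 4 := by ring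
    linarith
  have h6 : M * (4 + 768 / L ^ 2) ≤ 772 / L ^ 4 * O := by
    calc M * (4 + 768 / L ^ 2) ≤ O * (772 / L ^ 4) :=
          mul_le_mul h2 h5 (by positivity) (by linarith)
      _ = _ := by ring
  have h7 : 4800772 / L ^ 4 * O = 4800000 / L ^ 4 * O + 772 / L ^ 4 * O := by ring
  linarith

theorem nodup_of_bst {T : Tr} (hT : IsBST T) : (keys T).Nodup := by
  unfold IsBST at hT
  exact hT.imp fun h => Nat.ne_of_lt h

/-- the mean cost of splaying is bounded by the entropy of the labels -/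
theorem splay_ent (h : Gap π P lam) {T : Tr} (hT : IsBST T) {κ : V → ℕ}
    (hκ : ∀ v, κ v ∈ keys T) {M R : ℕ} (hR : ∀ x ∈ keys T, x < R) :
    expect P M π (fun X => (costSplay T (X.map κ) : ℝ)) ≤
      5 * M + 3 / Real.log 2 * (M * ent π κ (keys T).toFinset 0 R) +
        ((keys T).length + (keys T).length * Real.logb 2 (keys T).length) := by
  obtain ⟨n, hn⟩ : ∃ n, n = (keys T).length := ⟨_, rfl⟩
  have hne : keys T ≠ [] := by
    intro h0
    have hV : Nonempty V := by
      by_contra hcon
      rw [not_nonempty_iff] at hcon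
      have := h.sum
      simp at this
    obtain ⟨v⟩ := hV
    have := hκ v
    rw [h0] at this
    simp at this
  have hn1 : 1 ≤ n := by
    rw [hn]
    exact List.length_pos_iff.2 hne
  have hnr : (0 : ℝ) < n := by exact_mod_cast hn1
  have hlog2 : 0 < Real.log 2 := Real.log_pos (by norm_num)
  obtain ⟨w, hw⟩ : ∃ w : ℕ → ℝ, w = fun x => pt π κ x + 1 / n := ⟨_, rfl⟩
  have hw0 : ∀ a, 0 < w a := by
    intro a
    rw [hw]
    have := pt_nonneg h κ a
    positivity
  have hm : mass π κ 0 R = 1 := by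
    rw [← h.sum]
    unfold mass
    refine sum_congr rfl fun v _ => ?_
    unfold ind
    rw [if_pos ⟨by omega, hR _ (hκ v)⟩, mul_one]
  have hpart : part (keys T).toFinset 0 R = (keys T).toFinset := by
    unfold part
    rw [filter_eq_self]
    intro x hx
    exact ⟨by omega, hR x (List.mem_toFinset.1 hx)⟩
  have hptsum : ∑ x ∈ (keys T).toFinset, pt π κ x = 1 := by
    have := mass_sum (π := π) (K := (keys T).toFinset)
      (fun v => List.mem_toFinset.2 (hκ v)) 0 R
    rw [hm, hpart] at this
    exact this.symm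
  have hW : wt w T = 2 := by
    rw [wt_eq, ← List.sum_toFinset w (nodup_of_bst hT), hw, sum_add_distrib, hptsum, sum_const,
      List.toFinset_card_of_nodup (nodup_of_bst hT), ← hn, nsmul_eq_mul]
    field_simp
    norm_num
  have hpot := pot_le hw0 T hW.le
  rw [Real.logb_self_eq_one (by norm_num), mul_one] at hpot
  have hlow : -(n * Real.logb 2 n) ≤ ((keys T).map (fun a => Real.logb 2 (w a))).sum := by
    have h1 : ∀ a, -Real.logb 2 n ≤ Real.logb 2 (w a) := by
      intro a
      have h2 : (1 : ℝ) / n ≤ w a := by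
        rw [hw]
        have := pt_nonneg h κ a
        linarith
      have h3 := logb_mono (by positivity) h2
      have h4 : Real.logb 2 (1 / (n : ℝ)) = -Real.logb 2 n := by
        rw [one_div, Real.logb_inv]
      linarith
    rw [← List.sum_toFinset _ (nodup_of_bst hT)]
    have h5 : ∑ _x ∈ (keys T).toFinset, -Real.logb 2 (n : ℝ) ≤
        ∑ x ∈ (keys T).toFinset, Real.logb 2 (w x) := sum_le_sum fun x _ => h1 x
    rw [sum_const, List.toFinset_card_of_nodup (nodup_of_bst hT), ← hn, nsmul_eq_mul] at h5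
    linarith
  have hcost : ∀ X : List V, (costSplay T (X.map κ) : ℝ) ≤
      (X.map (fun v => 2 + 3 * (1 - Real.logb 2 (w (κ v))))).sum + (n + n * Real.logb 2 n) := by
    intro X
    have h1 := cost_le hw0 (X.map κ) T hT hW (fun y hy => by
      rw [List.mem_map] at hy
      obtain ⟨v, -, rfl⟩ := hy
      exact hκ v)
    rw [Real.logb_self_eq_one (by norm_num), List.map_map] at h1
    rw [← hn] at hpot
    have e : (fun y => 2 + 3 * (1 - Real.logb 2 (w y))) ∘ κ =
        fun v => 2 + 3 * (1 - Real.logb 2 (w (κ v))) := rfl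
    rw [e] at h1
    linarith
  have h1 : expect P M π (fun X => (costSplay T (X.map κ) : ℝ)) ≤
      expect P M π (fun X => (X.map (fun v => 2 + 3 * (1 - Real.logb 2 (w (κ v))))).sum +
        (n + n * Real.logb 2 n)) :=
    expect_mono h.nonneg M h.pos fun X _ => hcost X
  rw [expect_add, expect_const h.row M h.sum, expect_map_sum h,
    label_sum (K := (keys T).toFinset) (fun v => List.mem_toFinset.2 (hκ v))
      (fun x => 2 + 3 * (1 - Real.logb 2 (w x)))] at h1
  have h2 : ∑ x ∈ (keys T).toFinset, pt π κ x * (2 + 3 * (1 - Real.logb 2 (w x))) ≤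
      5 + 3 / Real.log 2 * ent π κ (keys T).toFinset 0 R := by
    unfold ent
    rw [hpart, hm]
    have h3 : ∀ x ∈ (keys T).toFinset, pt π κ x * (2 + 3 * (1 - Real.logb 2 (w x))) ≤
        5 * pt π κ x + 3 / Real.log 2 * (pt π κ x * Real.log (1 / pt π κ x)) := by
      intro x _
      rcases (pt_nonneg h κ x).eq_or_lt with q | q
      · rw [← q]; simp
      · have q1 : Real.logb 2 (pt π κ x) ≤ Real.logb 2 (w x) := logb_mono q (by
          rw [hw]
          have : (0 : ℝ) ≤ 1 / n := by positivity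
          linarith)
        have q2 : Real.log (1 / pt π κ x) = -(Real.logb 2 (pt π κ x) * Real.log 2) := by
          rw [one_div, Real.log_inv]
          congr 1
          unfold Real.logb
          field_simp
        rw [q2]
        have q3 : 3 / Real.log 2 * (pt π κ x * -(Real.logb 2 (pt π κ x) * Real.log 2)) =
            -(3 * pt π κ x * Real.logb 2 (pt π κ x)) := by
          field_simp
        rw [q3]
        have q4 := mul_le_mul_of_nonneg_left q1 q.le
        linarith
    refine (sum_le_sum h3).trans (le_of_eq ?_)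
    rw [sum_add_distrib, ← mul_sum, ← mul_sum, hptsum, mul_one]
  have h4 := mul_le_mul_of_nonneg_left h2 (Nat.cast_nonneg (α := ℝ) M)
  rw [← hn]
  linarith

/-- **Main theorem.** -/
theorem main (h : Gap π P lam) {T : Tr} (hT : IsBST T) {κ : V → ℕ} (hκ : ∀ v, κ v ∈ keys T)
    (M : ℕ) :
    expect P M π (fun X => (costSplay T (X.map κ) : ℝ)) ≤
      21000000 / (1 - lam) ^ 4 *
        expect P M π (fun X => (optAny (keys T) (X.map κ) : ℝ)) +
        7 * ((keys T).length * Real.logb 2 (2 * (keys T).length)) := by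
  obtain ⟨R, hR⟩ : ∃ R, ∀ x ∈ keys T, x < R := by
    refine ⟨(keys T).toFinset.sup id + 1, fun x hx => ?_⟩
    have := le_sup (f := id) (List.mem_toFinset.2 hx)
    simp only [id] at this
    omega
  have hl : 0 < 1 - lam := by linarith [h.lam1]
  have hL1 : 1 - lam ≤ 1 := by linarith [h.lam0]
  have hne : (keys T).length ≠ 0 := by
    intro h0
    have hV : Nonempty V := by
      by_contra hcon
      rw [not_nonempty_iff] at hcon
      have := h.sum
      simp at this
    obtain ⟨v⟩ := hV
    have := hκ v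
    rw [List.length_eq_zero_iff.1 h0] at this
    simp at this
  have h1 := splay_ent h hT hκ (M := M) hR
  obtain ⟨n, hn⟩ : ∃ n, n = (keys T).length := ⟨_, rfl⟩
  rw [← hn] at h1 hne ⊢
  have hn1 : (1 : ℝ) ≤ n := by exact_mod_cast Nat.one_le_iff_ne_zero.2 hne
  have hlogb : Real.logb 2 (2 * (n : ℝ)) = 1 + Real.logb 2 n := by
    rw [Real.logb_mul (by norm_num) (by positivity), Real.logb_self_eq_one (by norm_num)]
  have hlogn : 0 ≤ Real.logb 2 (n : ℝ) := Real.logb_nonneg (by norm_num) hn1
  rcases Nat.eq_zero_or_pos M with h0 | h0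
  · subst h0
    simp only [expect, List.map_nil, costSplay, Nat.cast_zero]
    have : 0 ≤ 21000000 / (1 - lam) ^ 4 * (optAny (keys T) [] : ℝ) := by positivity
    rw [hlogb]
    positivity
  · have h2 := opt_ent h hT hκ h0 (fun v => hR _ (hκ v))
    have h3 := opt_ge_len h (T := T) (κ := κ) M
    obtain ⟨O, hO⟩ : ∃ O, O = expect P M π (fun X => (optAny (keys T) (X.map κ) : ℝ)) :=
      ⟨_, rfl⟩
    rw [← hn, ← hO] at h2
    rw [← hO] at h3 ⊢
    obtain ⟨L, hL⟩ : ∃ L, L = (1 - lam) ^ 4 := ⟨_, rfl⟩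
    have hL0 : 0 < L := by rw [hL]; positivity
    have hL2 : L ≤ 1 := by rw [hL]; exact pow_le_one₀ hl.le hL1
    rw [← hL] at h2 ⊢
    have hlog2 : (0.6931471803 : ℝ) < Real.log 2 := Real.log_two_gt_d9
    have hlog2p : 0 < Real.log 2 := by linarith
    have h4 := mul_le_mul_of_nonneg_left h2 (show 0 ≤ 3 / Real.log 2 by positivity)
    have h5 : 3 / Real.log 2 * (2 * (n * Real.log n)) = 6 * (n * Real.logb 2 n) := by
      unfold Real.logb
      field_simp
      ring
    have h6 : 3 / Real.log 2 ≤ 4.3281 := by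
      rw [div_le_iff₀ hlog2p]
      linarith
    have hO0 : 0 ≤ O := by linarith [Nat.cast_nonneg (α := ℝ) M]
    have h7 : 3 / Real.log 2 * (4800772 / L * O) ≤ 4.3281 * (4800772 / L * O) :=
      mul_le_mul_of_nonneg_right h6 (by positivity)
    have h8 : 5 * O ≤ 5 / L * O := by
      refine mul_le_mul_of_nonneg_right ?_ hO0
      rw [le_div_iff₀ hL0]
      linarith
    have h9 : 5 / L * O + 4.3281 * (4800772 / L * O) ≤ 21000000 / L * O := by
      have : 5 / L * O + 4.3281 * (4800772 / L * O) = (5 + 4.3281 * 4800772) * (O / L) := by ring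
      rw [this]
      have e2 : 21000000 / L * O = 21000000 * (O / L) := by ring
      rw [e2]
      exact mul_le_mul_of_nonneg_right (by norm_num) (by positivity)
    rw [mul_add, h5] at h4
    have e3 : 3 / Real.log 2 * (M * ent π κ (keys T).toFinset 0 R) ≤
        21000000 / L * O - 5 / L * O + 6 * (n * Real.logb 2 n) := by linarith
    rw [hlogb]
    have e4 : 5 * (M : ℝ) ≤ 5 / L * O := by linarith
    have e5 : (n : ℝ) + n * Real.logb 2 n + 6 * (n * Real.logb 2 n) ≤
        7 * (n * (1 + Real.logb 2 n)) := by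
      have : 7 * (n * (1 + Real.logb 2 n)) = 7 * n + 7 * (n * Real.logb 2 n) := by ring
      rw [this]
      linarith
    linarith

end Pool.Agent.U195.SM
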